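import Mathlib

set_option autoImplicit false

/-!
An entropy inequality: families of 4-subsets distinguished by the sizes of their intersections with
given sets.
-/

namespace Pool.Agent.J6H8.Osc

open Finset

theorem log_ratio {x : ℝ} (h0 : 0 ≤ x) (h1 : x < 1) : 2 * x ≤ Real.log (1 + x) - Real.log (1 - x) := by
  have h := Real.hasSum_log_sub_log_of_abs_lt_one (x := x) (by rw [abs_of_nonneg h0]; exact h1)
  have h2 := h.summable.sum_le_tsum (range 1) (fun i _ => by positivity)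
  rw [h.tsum_eq] at h2
  simpa using h2

theorem pin1 {x : ℝ} (h0 : 0 ≤ x) (h1 : x < 1) :
    x ^ 2 ≤ (1 + x) * Real.log (1 + x) + (1 - x) * Real.log (1 - x) := by
  set g : ℝ → ℝ := fun x => (1 + x) * Real.log (1 + x) + (1 - x) * Real.log (1 - x) - x ^ 2 with hg
  have hder : ∀ y ∈ Set.Icc (0 : ℝ) x, HasDerivAt g (Real.log (1 + y) - Real.log (1 - y) - 2 * y) y := by
    intro y hy
    have hp : (0 : ℝ) < 1 + y := by linarith [hy.1]
    have hm : (0 : ℝ) < 1 - y := by linarith [hy.2]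
    have d1 : HasDerivAt (fun z : ℝ => 1 + z) 1 y := by simpa using (hasDerivAt_id y).const_add 1
    have d2 : HasDerivAt (fun z : ℝ => 1 - z) (-1) y := by simpa using (hasDerivAt_id y).const_sub 1
    have d3 := d1.mul (d1.log hp.ne')
    have d4 := d2.mul (d2.log hm.ne')
    have d5 := hasDerivAt_pow 2 y
    have d6 := (d3.add d4).sub d5
    convert! d6 using 1
    field_simp
    ring
  have hmono : MonotoneOn g (Set.Icc 0 x) := by
    apply monotoneOn_of_deriv_nonneg (convex_Icc 0 x)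
    · intro y hy
      exact (hder y hy).continuousAt.continuousWithinAt
    · intro y hy
      rw [interior_Icc] at hy
      exact (hder y ⟨hy.1.le, hy.2.le⟩).differentiableAt.differentiableWithinAt
    · intro y hy
      rw [interior_Icc] at hy
      rw [(hder y ⟨hy.1.le, hy.2.le⟩).deriv]
      have := log_ratio hy.1.le (hy.2.trans h1)
      linarith
  have h2 := hmono ⟨le_rfl, h0⟩ ⟨h0, le_rfl⟩ h0
  rw [hg] at h2
  simp at h2
  linarith

theorem pinsker {p : ℝ} (h0 : 0 < p) (h1 : p < 1) :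
    -(p * Real.log p) - (1 - p) * Real.log (1 - p) ≤ Real.log 2 - 2 * (p - 1 / 2) ^ 2 := by
  have main : ∀ p : ℝ, 1 / 2 ≤ p → p < 1 →
      -(p * Real.log p) - (1 - p) * Real.log (1 - p) ≤ Real.log 2 - 2 * (p - 1 / 2) ^ 2 := by
    intro p hp hp1
    obtain ⟨x, hx⟩ : ∃ x, x = 2 * p - 1 := ⟨_, rfl⟩
    have h := pin1 (x := x) (by linarith) (by linarith)
    have e1 : p = (1 + x) / 2 := by rw [hx]; ring
    have e2 : 1 - p = (1 - x) / 2 := by rw [hx]; ring
    have l1 : Real.log p = Real.log (1 + x) - Real.log 2 := by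
      rw [e1, Real.log_div (by linarith) (by norm_num)]
    have l2 : Real.log (1 - p) = Real.log (1 - x) - Real.log 2 := by
      rw [e2, Real.log_div (by linarith) (by norm_num)]
    rw [l1, l2, e2, e1]
    nlinarith
  rcases le_total (1 / 2) p with h | h
  · exact main p h h1
  · have := main (1 - p) (by linarith) (by linarith)
    rw [show 1 - (1 - p) = p by ring] at this
    have e : (1 - p - 1 / 2) ^ 2 = (p - 1 / 2) ^ 2 := by ring
    rw [e] at this
    linarith

/-- the probabilities of the binomial law with four trials -/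
noncomputable def Q4 (p : ℝ) (j : ℕ) : ℝ := (Nat.choose 4 j : ℝ) * p ^ j * (1 - p) ^ (4 - j)

theorem Q4_sum (p : ℝ) : ∑ j ∈ range 5, Q4 p j = 1 := by
  unfold Q4
  simp only [sum_range_succ, range_zero, sum_empty]
  norm_num [Nat.choose]
  ring

theorem Q4_pos {p : ℝ} (h0 : 0 < p) (h1 : p < 1) {j : ℕ} (hj : j < 5) : 0 < Q4 p j := by
  unfold Q4
  have : 0 < 1 - p := by linarith
  have : 0 < Nat.choose 4 j := Nat.choose_pos (by omega)
  positivity

theorem Q4_le {p : ℝ} (h0 : 0 < p) (h1 : p < 1) {j : ℕ} (hj : j < 5) : Q4 p j ≤ 1 := by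
  rw [← Q4_sum p]
  exact single_le_sum (f := fun j => Q4 p j) (fun i hi => (Q4_pos h0 h1 (mem_range.1 hi)).le)
    (mem_range.2 hj)

theorem log4 : Real.log 4 = 2 * Real.log 2 := by
  rw [show (4 : ℝ) = 2 ^ 2 by norm_num, Real.log_pow]; push_cast; ring

theorem log6 : Real.log 6 = Real.log 2 + Real.log 3 := by
  rw [← Real.log_mul (by norm_num) (by norm_num)]; norm_num

theorem log3_lb : (1.0986 : ℝ) ≤ Real.log 3 := by
  rw [Real.le_log_iff_exp_le (by norm_num)]
  have h1 : Real.exp 1.0986 = Real.exp 1 * Real.exp 0.0986 := by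
    rw [← Real.exp_add]; norm_num
  have h2 : Real.exp 0.0986 ≤ 1.10363 := by
    have := Real.exp_bound' (x := 0.0986) (by norm_num) (by norm_num) (n := 4) (by norm_num)
    refine this.trans ?_
    norm_num [sum_range_succ, Nat.factorial]
  rw [h1]
  calc Real.exp 1 * Real.exp 0.0986 ≤ 2.7182818286 * 1.10363 :=
        mul_le_mul Real.exp_one_lt_d9.le h2 (Real.exp_pos _).le (by norm_num)
    _ ≤ 3 := by norm_num

/-- entropy of the binomial law with four trials -/
theorem H4 {p : ℝ} (h0 : 0 < p) (h1 : p < 1) :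
    ∑ j ∈ range 5, Q4 p j * (-Real.log (Q4 p j)) ≤ 1.4077 := by
  have hq : 0 < 1 - p := by linarith
  have hp := pinsker h0 h1
  obtain ⟨a, ha⟩ : ∃ a, a = Real.log p := ⟨_, rfl⟩
  obtain ⟨b, hb⟩ : ∃ b, b = Real.log (1 - p) := ⟨_, rfl⟩
  rw [← ha, ← hb] at hp
  have l0 : Real.log (Q4 p 0) = 4 * b := by
    unfold Q4; norm_num; rw [← hb]
  have l1 : Real.log (Q4 p 1) = 2 * Real.log 2 + a + 3 * b := by
    have : Q4 p 1 = 4 * p * (1 - p) ^ 3 := by unfold Q4; norm_num
    rw [this, Real.log_mul (by positivity) (by positivity), Real.log_mul (by norm_num) h0.ne',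
      Real.log_pow, ← ha, ← hb, log4]
    push_cast; ring
  have l2 : Real.log (Q4 p 2) = Real.log 2 + Real.log 3 + 2 * a + 2 * b := by
    have : Q4 p 2 = 6 * p ^ 2 * (1 - p) ^ 2 := by unfold Q4; norm_num [Nat.choose]
    rw [this, Real.log_mul (by positivity) (by positivity), Real.log_mul (by norm_num) (by positivity),
      Real.log_pow, Real.log_pow, ← ha, ← hb, log6]
    push_cast; ring
  have l3 : Real.log (Q4 p 3) = 2 * Real.log 2 + 3 * a + b := by
    have : Q4 p 3 = 4 * p ^ 3 * (1 - p) := by unfold Q4; norm_num [Nat.choose]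
    rw [this, Real.log_mul (by positivity) (by positivity), Real.log_mul (by norm_num) (by positivity),
      Real.log_pow, ← ha, ← hb, log4]
    push_cast; ring
  have l4 : Real.log (Q4 p 4) = 4 * a := by
    have : Q4 p 4 = p ^ 4 := by unfold Q4; norm_num
    rw [this, Real.log_pow, ← ha]; push_cast; ring
  simp only [sum_range_succ, range_zero, sum_empty, zero_add]
  rw [l0, l1, l2, l3, l4]
  obtain ⟨u, hu⟩ : ∃ u, u = p * (1 - p) := ⟨_, rfl⟩
  have hu0 : 0 < u := by rw [hu]; positivity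
  have hu1 : u ≤ 1 / 4 := by rw [hu]; nlinarith [sq_nonneg (p - 1 / 2)]
  have e : Q4 p 0 * -(4 * b) + Q4 p 1 * -(2 * Real.log 2 + a + 3 * b) +
      Q4 p 2 * -(Real.log 2 + Real.log 3 + 2 * a + 2 * b) + Q4 p 3 * -(2 * Real.log 2 + 3 * a + b) +
      Q4 p 4 * -(4 * a) = 4 * (-(p * a) - (1 - p) * b) - 4 * u * (1 - 2 * u) * (2 * Real.log 2) -
        6 * u ^ 2 * (Real.log 2 + Real.log 3) := by
    unfold Q4
    rw [hu]
    norm_num [Nat.choose]
    ring
  rw [e]
  have hp' : -(p * a) - (1 - p) * b ≤ Real.log 2 - 1 / 2 + 2 * u := by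
    rw [hu]; nlinarith
  have b2 := Real.log_two_lt_d9
  have b2' := Real.log_two_gt_d9
  have b3 := log3_lb
  have hu2 : 0 ≤ u ^ 2 := by positivity
  have hu3 : u ^ 2 ≤ u / 4 := by nlinarith
  obtain ⟨L2, hL2⟩ : ∃ L2, L2 = Real.log 2 := ⟨_, rfl⟩
  obtain ⟨L3, hL3⟩ : ∃ L3, L3 = Real.log 3 := ⟨_, rfl⟩
  rw [← hL2] at b2 b2' hp' ⊢
  rw [← hL3] at b3 ⊢
  -- the bound is 4 L2 - 2 + u (8 - 8 L2) + u^2 (16 L2 - 6 L2 - 6 L3)
  have h3 : 4 * (-(p * a) - (1 - p) * b) - 4 * u * (1 - 2 * u) * (2 * L2) - 6 * u ^ 2 * (L2 + L3) ≤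
      4 * L2 - 2 + u * (8 - 8 * L2) + u ^ 2 * (10 * L2 - 6 * L3) := by
    nlinarith
  refine h3.trans ?_
  have h4 : u ^ 2 * (10 * L2 - 6 * L3) ≤ u ^ 2 * 0.3399 := by
    apply mul_le_mul_of_nonneg_left _ hu2
    linarith
  have h5 : u * (8 - 8 * L2) ≤ 1 / 4 * (8 - 8 * L2) := by
    apply mul_le_mul_of_nonneg_right hu1
    linarith
  nlinarith

end Pool.Agent.J6H8.Osc
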