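import Mathlib
import Pool.Agent.J6H8.Osc.Ent

set_option autoImplicit false

/-!
An entropy inequality: families of 4-subsets distinguished by the sizes of their intersections with
given sets.
-/

namespace Pool.Agent.J6H8.Osc

open Finset

theorem weights {ι β : Type*} [DecidableEq ι] (V : Finset ι) (Q : ι → ℕ → ℝ) (e : ι → β → ℕ) (K : ℕ)
    (hQ : ∀ v ∈ V, ∀ j ∈ range K, 0 ≤ Q v j) (hQ1 : ∀ v ∈ V, ∑ j ∈ range K, Q v j ≤ 1) :
    ∀ (P : Finset β), (∀ X ∈ P, ∀ v ∈ V, e v X ∈ range K) →
      (∀ X ∈ P, ∀ Y ∈ P, (∀ v ∈ V, e v X = e v Y) → X = Y) →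
      ∑ X ∈ P, ∏ v ∈ V, Q v (e v X) ≤ 1 := by
  classical
  induction V using Finset.induction_on with
  | empty =>
    intro P _ hinj
    simp only [prod_empty, sum_const, nsmul_eq_mul, mul_one]
    have : P.card ≤ 1 := by
      rw [card_le_one]
      intro X hX Y hY
      exact hinj X hX Y hY (fun v hv => absurd hv (notMem_empty v))
    exact_mod_cast this
  | insert a V ha ih =>
    intro P hP hinj
    have hQV : ∀ v ∈ V, ∀ j ∈ range K, 0 ≤ Q v j := fun v hv => hQ v (mem_insert_of_mem hv)
    have hQ1V : ∀ v ∈ V, ∑ j ∈ range K, Q v j ≤ 1 := fun v hv => hQ1 v (mem_insert_of_mem hv)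
    have h1 : ∑ X ∈ P, ∏ v ∈ insert a V, Q v (e v X) =
        ∑ j ∈ range K, ∑ X ∈ P with e a X = j, ∏ v ∈ insert a V, Q v (e v X) :=
      (sum_fiberwise_of_maps_to (fun X hX => hP X hX a (mem_insert_self a V)) _).symm
    rw [h1]
    have h2 : ∀ j ∈ range K, ∑ X ∈ P with e a X = j, ∏ v ∈ insert a V, Q v (e v X) ≤ Q a j := by
      intro j hj
      have h3 : ∑ X ∈ P with e a X = j, ∏ v ∈ insert a V, Q v (e v X) =
          Q a j * ∑ X ∈ P with e a X = j, ∏ v ∈ V, Q v (e v X) := by
        rw [mul_sum]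
        apply sum_congr rfl
        intro X hX
        rw [mem_filter] at hX
        rw [prod_insert ha, hX.2]
      rw [h3]
      have h4 := ih hQV hQ1V (P.filter fun X => e a X = j)
        (fun X hX v hv => hP X (mem_filter.1 hX).1 v (mem_insert_of_mem hv))
        (fun X hX Y hY h => by
          rw [mem_filter] at hX hY
          apply hinj X hX.1 Y hY.1
          intro v hv
          rcases mem_insert.1 hv with h' | h'
          · rw [h', hX.2, hY.2]
          · exact h v h')
      have h5 := hQ a (mem_insert_self a V) j hj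
      calc Q a j * ∑ X ∈ P with e a X = j, ∏ v ∈ V, Q v (e v X) ≤ Q a j * 1 :=
            mul_le_mul_of_nonneg_left h4 h5
        _ = Q a j := mul_one _
    exact (sum_le_sum h2).trans (hQ1 a (mem_insert_self a V))

/-- number of 4-subsets meeting `A` in `j` elements -/
theorem count_inter {α : Type*} [DecidableEq α] (S A : Finset α) (hA : A ⊆ S) (j : ℕ) (hj : j ≤ 4) :
    ((powersetCard 4 S).filter fun X => (X ∩ A).card = j).card ≤
      A.card.choose j * (S \ A).card.choose (4 - j) := by
  have h : ((powersetCard 4 S).filter fun X => (X ∩ A).card = j).card ≤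
      (powersetCard j A ×ˢ powersetCard (4 - j) (S \ A)).card := by
    apply card_le_card_of_injOn (fun X => (X ∩ A, X \ A))
    · intro X hX
      rw [mem_coe, mem_filter, mem_powersetCard] at hX
      obtain ⟨⟨h1, h2⟩, h3⟩ := hX
      rw [mem_coe, mem_product, mem_powersetCard, mem_powersetCard]
      refine ⟨⟨inter_subset_right, h3⟩, sdiff_subset_sdiff h1 (Subset.refl _), ?_⟩
      have := card_sdiff_add_card_inter X A
      show (X \ A).card = 4 - j
      omega
    · intro X _ Y _ hXY
      simp only [Prod.mk.injEq] at hXY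
      rw [← sdiff_union_inter X A, ← sdiff_union_inter Y A, hXY.1, hXY.2]
  rw [card_product, card_powersetCard, card_powersetCard] at h
  exact h

/-- **Entropy inequality.** -/
theorem entropy {α ι : Type*} [DecidableEq α] [DecidableEq ι] (S : Finset α) (V : Finset ι)
    (A : ι → Finset α) (h4 : 4 ≤ S.card) (hA : ∀ v ∈ V, A v ⊆ S ∧ (A v).Nonempty ∧ (S \ A v).Nonempty)
    (hinj : ∀ X ∈ powersetCard 4 S, ∀ Y ∈ powersetCard 4 S,
      (∀ v ∈ V, (X ∩ A v).card = (Y ∩ A v).card) → X = Y) :
    (S.card.choose 4 : ℝ) * Real.log (S.card.choose 4) ≤ (S.card : ℝ) ^ 4 / 24 * (1.4077 * V.card) := by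
  set M : ℝ := (S.card : ℝ) with hM
  have hM0 : 0 < M := by
    have : 0 < S.card := by omega
    rw [hM]; exact_mod_cast this
  set p : ι → ℝ := fun v => ((A v).card : ℝ) / M with hp
  have hp01 : ∀ v ∈ V, 0 < p v ∧ p v < 1 := by
    intro v hv
    obtain ⟨h1, h2, h3⟩ := hA v hv
    have c1 := card_sdiff_add_card_eq_card h1
    have c2 := h2.card_pos
    have c3 := h3.card_pos
    have c4 : (A v).card < S.card := by omega
    constructor
    · simp only [hp]; positivity
    · simp only [hp]
      rw [div_lt_one hM0, hM]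
      exact_mod_cast c4
  set P := powersetCard 4 S with hP
  set w : Finset α → ℝ := fun X => ∏ v ∈ V, Q4 (p v) ((X ∩ A v).card) with hw
  have hrange : ∀ X ∈ P, ∀ v ∈ V, (X ∩ A v).card ∈ range 5 := by
    intro X hX v _
    rw [hP, mem_powersetCard] at hX
    rw [mem_range]
    have := card_le_card (inter_subset_left : X ∩ A v ⊆ X)
    omega
  have hsum : ∑ X ∈ P, w X ≤ 1 := by
    apply weights V (fun v j => Q4 (p v) j) (fun v X => (X ∩ A v).card) 5 _ _ P hrange hinj
    · intro v hv j hj
      exact (Q4_pos (hp01 v hv).1 (hp01 v hv).2 (mem_range.1 hj)).le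
    · intro v _
      exact (Q4_sum _).le
  have hwpos : ∀ X ∈ P, 0 < w X := by
    intro X hX
    apply prod_pos
    intro v hv
    exact Q4_pos (hp01 v hv).1 (hp01 v hv).2 (mem_range.1 (hrange X hX v hv))
  set Nc : ℝ := (P.card : ℝ) with hNc
  have hcard : P.card = S.card.choose 4 := by rw [hP, card_powersetCard]
  have hNc0 : 0 < Nc := by
    rw [hNc, hcard]
    exact_mod_cast Nat.choose_pos h4
  -- Jensen
  have hjen : Nc * Real.log Nc ≤ ∑ X ∈ P, -Real.log (w X) := by
    have h1 : ∀ X ∈ P, Real.log Nc + Real.log (w X) ≤ Nc * w X - 1 := by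
      intro X hX
      rw [← Real.log_mul hNc0.ne' (hwpos X hX).ne']
      exact Real.log_le_sub_one_of_pos (mul_pos hNc0 (hwpos X hX))
    have h2 := sum_le_sum h1
    rw [sum_add_distrib, sum_sub_distrib, ← mul_sum, sum_const, sum_const, nsmul_eq_mul, nsmul_eq_mul,
      mul_one] at h2
    rw [sum_neg_distrib]
    have h3 : Nc * ∑ X ∈ P, w X ≤ Nc * 1 := mul_le_mul_of_nonneg_left hsum hNc0.le
    linarith
  -- each coordinate
  have hcoord : ∀ v ∈ V, ∑ X ∈ P, -Real.log (Q4 (p v) ((X ∩ A v).card)) ≤ M ^ 4 / 24 * 1.4077 := by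
    intro v hv
    obtain ⟨hA1, hA2, hA3⟩ := hA v hv
    obtain ⟨hp0, hp1⟩ := hp01 v hv
    have h1 : ∑ X ∈ P, -Real.log (Q4 (p v) ((X ∩ A v).card)) =
        ∑ j ∈ range 5, ∑ X ∈ P with (X ∩ A v).card = j, -Real.log (Q4 (p v) ((X ∩ A v).card)) :=
      (sum_fiberwise_of_maps_to (fun X hX => hrange X hX v hv) _).symm
    rw [h1]
    have h2 : ∀ j ∈ range 5, ∑ X ∈ P with (X ∩ A v).card = j, -Real.log (Q4 (p v) ((X ∩ A v).card)) ≤
        M ^ 4 / 24 * (Q4 (p v) j * -Real.log (Q4 (p v) j)) := by
      intro j hj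
      have h3 : ∑ X ∈ P with (X ∩ A v).card = j, -Real.log (Q4 (p v) ((X ∩ A v).card)) =
          (((P.filter fun X => (X ∩ A v).card = j).card : ℕ) : ℝ) * -Real.log (Q4 (p v) j) := by
        rw [← nsmul_eq_mul, ← sum_const]
        apply sum_congr rfl
        intro X hX
        rw [(mem_filter.1 hX).2]
      rw [h3]
      have hj5 := mem_range.1 hj
      have hlog : 0 ≤ -Real.log (Q4 (p v) j) := by
        rw [neg_nonneg]
        exact Real.log_nonpos (Q4_pos hp0 hp1 hj5).le (Q4_le hp0 hp1 hj5)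
      have h4 : (((P.filter fun X => (X ∩ A v).card = j).card : ℕ) : ℝ) ≤ M ^ 4 / 24 * Q4 (p v) j := by
        have h5 := count_inter S (A v) hA1 j (by omega)
        have h6 : (((P.filter fun X => (X ∩ A v).card = j).card : ℕ) : ℝ) ≤
            (((A v).card.choose j * (S \ A v).card.choose (4 - j) : ℕ) : ℝ) := by exact_mod_cast h5
        refine h6.trans ?_
        push_cast
        have h7 := Nat.choose_le_pow_div (α := ℝ) j (A v).card
        have h8 := Nat.choose_le_pow_div (α := ℝ) (4 - j) (S \ A v).card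
        have h9 : (((A v).card.choose j : ℕ) : ℝ) * (((S \ A v).card.choose (4 - j) : ℕ) : ℝ) ≤
            ((A v).card : ℝ) ^ j / (j.factorial : ℝ) *
              (((S \ A v).card : ℝ) ^ (4 - j) / ((4 - j).factorial : ℝ)) :=
          mul_le_mul h7 h8 (Nat.cast_nonneg _) (by positivity)
        refine h9.trans (le_of_eq ?_)
        have e1 : ((A v).card : ℝ) = M * p v := by simp only [hp]; field_simp
        have e2 : ((S \ A v).card : ℝ) = M * (1 - p v) := by
          have c1 := card_sdiff_add_card_eq_card hA1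
          have c2 : ((S \ A v).card : ℝ) + ((A v).card : ℝ) = M := by rw [hM]; exact_mod_cast c1
          rw [e1] at c2
          linarith
        rw [e1, e2]
        unfold Q4
        interval_cases j
        · norm_num [Nat.factorial]; ring
        · norm_num [Nat.factorial]; ring
        · norm_num [Nat.factorial, Nat.choose]; ring
        · norm_num [Nat.factorial, Nat.choose]; ring
        · norm_num [Nat.factorial]; ring
      calc _ ≤ M ^ 4 / 24 * Q4 (p v) j * -Real.log (Q4 (p v) j) := mul_le_mul_of_nonneg_right h4 hlog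
        _ = _ := by ring
    refine (sum_le_sum h2).trans ?_
    rw [← mul_sum]
    exact mul_le_mul_of_nonneg_left (H4 hp0 hp1) (by positivity)
  have hlogw : ∑ X ∈ P, -Real.log (w X) = ∑ v ∈ V, ∑ X ∈ P, -Real.log (Q4 (p v) ((X ∩ A v).card)) := by
    rw [sum_comm]
    apply sum_congr rfl
    intro X hX
    simp only [hw]
    rw [Real.log_prod (fun v hv => (Q4_pos (hp01 v hv).1 (hp01 v hv).2
      (mem_range.1 (hrange X hX v hv))).ne'), sum_neg_distrib]
  have hfin : ∑ v ∈ V, ∑ X ∈ P, -Real.log (Q4 (p v) ((X ∩ A v).card)) ≤ V.card * (M ^ 4 / 24 * 1.4077) := by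
    have := sum_le_sum hcoord
    rwa [sum_const, nsmul_eq_mul] at this
  have hN : Nc = ((S.card.choose 4 : ℕ) : ℝ) := by rw [hNc, hcard]
  rw [← hN]
  rw [hlogw] at hjen
  linarith

end Pool.Agent.J6H8.Osc
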