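import Mathlib
import Pool.Agent.H319R2.Basic

set_option autoImplicit false

/-!
Groups of elements of a cycle travelling together: steps at which the parities differ.
-/

namespace Pool.Agent.J6H8.Osc

open Finset Pool.Agent.H319R2

/-- all members of `G` have met the same number of odd terms before time `v` -/
def Tight (G : Finset ℤ) (v : ℕ) : Prop := ∀ x ∈ G, ∀ y ∈ G, od v x = od v y

/-- both parities occur among the members of `G` at time `v` -/
def Mixed (G : Finset ℤ) (v : ℕ) : Prop := (∃ x ∈ G, (T^[v] x) % 2 = 0) ∧ ∃ y ∈ G, (T^[v] y) % 2 = 1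

theorem Tight.mono {G G' : Finset ℤ} {v : ℕ} (h : Tight G v) (hs : G' ⊆ G) : Tight G' v :=
  fun x hx y hy => h x (hs hx) y (hs hy)

theorem tight_zero (G : Finset ℤ) : Tight G 0 := fun x _ y _ => by rw [od_zero, od_zero]

/-- the setting: `Z` is closed, its elements lie in a window, and tight members stay close -/
structure Setting (Z S : Finset ℤ) (N M W : ℝ) (R : ℕ) : Prop where
  closed : ∀ x ∈ Z, T x ∈ Z
  sub : S ⊆ Z
  lo : ∀ x ∈ Z, N ≤ |(x : ℝ)|
  hi : ∀ x ∈ Z, |(x : ℝ)| ≤ M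
  close : ∀ v ≤ R, ∀ x ∈ S, ∀ y ∈ S, od v x = od v y → |((T^[v] x : ℤ) : ℝ)| ≤ W * |((T^[v] y : ℤ) : ℝ)|
  N1 : 1 ≤ N
  W1 : 1 ≤ W
  c1 : W * (2 * M + 1) < 12 * N
  c2 : W * (4 * M + 5) < 18 * N
  c3 : 9 * (W * (2 * M + 1)) + 42 < 96 * N

variable {Z S : Finset ℤ} {N M W : ℝ} {R : ℕ}

theorem iter_mem (hc : ∀ x ∈ Z, T x ∈ Z) {x : ℤ} (hx : x ∈ Z) (v : ℕ) : T^[v] x ∈ Z := by
  induction v with
  | zero => exact hx
  | succ v ih => rw [Function.iterate_succ_apply']; exact hc _ ih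

theorem Setting.even_ge (h : Setting Z S N M W R) {z : ℤ} (hz : z ∈ Z) (he : z % 2 = 0) :
    2 * N ≤ |(z : ℝ)| := by
  have h1 := T_even he
  have h2 : (2 : ℝ) * ((T z : ℤ) : ℝ) = (z : ℝ) := by exact_mod_cast h1
  have h3 := h.lo _ (h.closed z hz)
  rw [← h2, abs_mul]
  norm_num
  linarith

theorem Setting.odd_le (h : Setting Z S N M W R) {z : ℤ} (hz : z ∈ Z) (ho : z % 2 = 1) :
    3 * |(z : ℝ)| ≤ 2 * M + 1 := by
  have h1 := T_odd ho
  have h2 : (2 : ℝ) * ((T z : ℤ) : ℝ) = 3 * (z : ℝ) + 1 := by exact_mod_cast h1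
  have h3 := h.hi _ (h.closed z hz)
  have h4 : 3 * |(z : ℝ)| - 1 ≤ |3 * (z : ℝ) + 1| := by
    have := abs_sub_abs_le_abs_sub (3 * (z : ℝ)) (-1)
    rw [abs_mul, abs_neg, abs_one, sub_neg_eq_add] at this
    norm_num at this
    linarith
  rw [← h2, abs_mul] at h4
  norm_num at h4
  linarith

/-- at a tight mixed time all members are in a short window -/
theorem Setting.mixed_range (h : Setting Z S N M W R) {G : Finset ℤ} (hG : G ⊆ S) {v : ℕ} (hv : v ≤ R)
    (hT : Tight G v) (hM : Mixed G v) {x : ℤ} (hx : x ∈ G) :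
    2 * N ≤ W * |((T^[v] x : ℤ) : ℝ)| ∧ 3 * |((T^[v] x : ℤ) : ℝ)| ≤ W * (2 * M + 1) := by
  obtain ⟨⟨a, ha, hae⟩, ⟨b, hb, hbo⟩⟩ := hM
  have hZ : ∀ y ∈ G, T^[v] y ∈ Z := fun y hy => iter_mem h.closed (h.sub (hG hy)) v
  have h1 := h.even_ge (hZ a ha) hae
  have h2 := h.odd_le (hZ b hb) hbo
  have h3 := h.close v hv a (hG ha) x (hG hx) (hT a ha x hx)
  have h4 := h.close v hv x (hG hx) b (hG hb) (hT x hx b hb)
  have hW : 0 < W := by linarith [h.W1]
  constructor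
  · linarith
  · have h5 : W * (3 * |((T^[v] b : ℤ) : ℝ)|) ≤ W * (2 * M + 1) := mul_le_mul_of_nonneg_left h2 hW.le
    linarith

/-- the step of an even member at a tight mixed time -/
theorem Setting.step_even (h : Setting Z S N M W R) {G : Finset ℤ} (hG : G ⊆ S) {v : ℕ} (hv : v ≤ R)
    (hT : Tight G v) (hM : Mixed G v) {x : ℤ} (hx : x ∈ G) (he : (T^[v] x) % 2 = 0) :
    (T^[v + 1] x) % 2 = 1 ∧ 4 * T^[v + 2] x = 3 * T^[v] x + 2 ∧ od (v + 2) x = od v x + 1 := by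
  have h1 := h.mixed_range hG hv hT hM hx
  have hTe := T_even he
  have e1 : T^[v + 1] x = T (T^[v] x) := Function.iterate_succ_apply' _ _ _
  have e2 : T^[v + 2] x = T (T^[v + 1] x) := Function.iterate_succ_apply' _ _ _
  have hodd : (T^[v + 1] x) % 2 = 1 := by
    rcases par (T^[v + 1] x) with h' | h'
    · exfalso
      have h2 := h.even_ge (iter_mem h.closed (h.sub (hG hx)) (v + 1)) h'
      have h3 : (2 : ℝ) * ((T^[v + 1] x : ℤ) : ℝ) = ((T^[v] x : ℤ) : ℝ) := by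
        rw [e1]; exact_mod_cast hTe
      have h4 : 2 * |((T^[v + 1] x : ℤ) : ℝ)| = |((T^[v] x : ℤ) : ℝ)| := by
        rw [← h3, abs_mul]; norm_num
      have := h.c1
      linarith [h1.2]
    · exact h'
  refine ⟨hodd, ?_, ?_⟩
  · have h5 := T_odd hodd
    rw [e2]
    rw [← e1] at hTe
    linarith
  · rw [od_succ_odd hodd, od_succ_even he]

/-- the step of an odd member at a tight mixed time -/
theorem Setting.step_odd (h : Setting Z S N M W R) {G : Finset ℤ} (hG : G ⊆ S) {v : ℕ} (hv : v ≤ R)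
    (hT : Tight G v) (hM : Mixed G v) {x : ℤ} (hx : x ∈ G) (ho : (T^[v] x) % 2 = 1) :
    (T^[v + 1] x) % 2 = 0 ∧ 4 * T^[v + 2] x = 3 * T^[v] x + 1 ∧ od (v + 2) x = od v x + 1 := by
  have h1 := h.mixed_range hG hv hT hM hx
  have hTo := T_odd ho
  have e1 : T^[v + 1] x = T (T^[v] x) := Function.iterate_succ_apply' _ _ _
  have e2 : T^[v + 2] x = T (T^[v + 1] x) := Function.iterate_succ_apply' _ _ _
  have heven : (T^[v + 1] x) % 2 = 0 := by
    rcases par (T^[v + 1] x) with h' | h'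
    · exact h'
    · exfalso
      have h2 := h.odd_le (iter_mem h.closed (h.sub (hG hx)) (v + 1)) h'
      have h3 : (2 : ℝ) * ((T^[v + 1] x : ℤ) : ℝ) = 3 * ((T^[v] x : ℤ) : ℝ) + 1 := by
        rw [e1]; exact_mod_cast hTo
      have h4 : 3 * |((T^[v] x : ℤ) : ℝ)| - 1 ≤ 2 * |((T^[v + 1] x : ℤ) : ℝ)| := by
        have h5 : 2 * |((T^[v + 1] x : ℤ) : ℝ)| = |3 * ((T^[v] x : ℤ) : ℝ) + 1| := by
          rw [← h3, abs_mul]; norm_num
        rw [h5]
        have := abs_sub_abs_le_abs_sub (3 * ((T^[v] x : ℤ) : ℝ)) (-1)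
        rw [abs_mul, abs_neg, abs_one, sub_neg_eq_add] at this
        norm_num at this
        linarith
      have h6 : 9 * |((T^[v] x : ℤ) : ℝ)| ≤ 4 * M + 5 := by linarith
      have hW : 0 < W := by linarith [h.W1]
      have h7 : W * (9 * |((T^[v] x : ℤ) : ℝ)|) ≤ W * (4 * M + 5) := mul_le_mul_of_nonneg_left h6 hW.le
      have := h.c2
      linarith [h1.1]
  refine ⟨heven, ?_, ?_⟩
  · have h5 := T_even heven
    rw [e2]
    rw [← e1] at hTo
    linarith
  · rw [od_succ_even heven, od_succ_odd ho]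

theorem Setting.tight_two (h : Setting Z S N M W R) {G : Finset ℤ} (hG : G ⊆ S) {v : ℕ} (hv : v ≤ R)
    (hT : Tight G v) (hM : Mixed G v) : Tight G (v + 2) := by
  have key : ∀ x ∈ G, od (v + 2) x = od v x + 1 := by
    intro x hx
    rcases par (T^[v] x) with h' | h'
    · exact (h.step_even hG hv hT hM hx h').2.2
    · exact (h.step_odd hG hv hT hM hx h').2.2
  intro x hx y hy
  rw [key x hx, key y hy, hT x hx y hy]

/-- parities agree at a time which is not mixed -/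
theorem not_mixed {G : Finset ℤ} {v : ℕ} (h : ¬ Mixed G v) :
    (∀ x ∈ G, (T^[v] x) % 2 = 0) ∨ ∀ x ∈ G, (T^[v] x) % 2 = 1 := by
  by_contra hcon
  push Not at hcon
  obtain ⟨⟨x, hx, hx'⟩, ⟨y, hy, hy'⟩⟩ := hcon
  apply h
  refine ⟨⟨y, hy, ?_⟩, ⟨x, hx, ?_⟩⟩
  · rcases par (T^[v] y) with h' | h'
    · exact h'
    · exact absurd h' hy'
  · rcases par (T^[v] x) with h' | h'
    · exact absurd h' hx'
    · exact h'

theorem tight_one {G : Finset ℤ} {v : ℕ} (hT : Tight G v) (hM : ¬ Mixed G v) : Tight G (v + 1) := by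
  intro x hx y hy
  rcases not_mixed hM with h | h
  · rw [od_succ_even (h x hx), od_succ_even (h y hy), hT x hx y hy]
  · rw [od_succ_odd (h x hx), od_succ_odd (h y hy), hT x hx y hy]

/-- size after a tight mixed time -/
theorem Setting.size_two (h : Setting Z S N M W R) {G : Finset ℤ} (hG : G ⊆ S) {v : ℕ} (hv : v ≤ R)
    (hT : Tight G v) (hM : Mixed G v) {x : ℤ} (hx : x ∈ G) :
    4 * |((T^[v + 2] x : ℤ) : ℝ)| ≤ 3 * |((T^[v] x : ℤ) : ℝ)| + 2 := by
  have key : ∀ (a b c : ℤ), 4 * a = 3 * b + c → 0 ≤ c → c ≤ 2 → 4 * |(a : ℝ)| ≤ 3 * |(b : ℝ)| + 2 := by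
    intro a b c habc hc0 hc2
    have h1 : (4 : ℝ) * a = 3 * b + c := by exact_mod_cast habc
    have h2 : (c : ℝ) ≤ 2 := by exact_mod_cast hc2
    have h3 : (0 : ℝ) ≤ c := by exact_mod_cast hc0
    have h4 : 4 * |(a : ℝ)| = |4 * (a : ℝ)| := by rw [abs_mul]; norm_num
    rw [h4, h1]
    refine (abs_add_le _ _).trans ?_
    rw [abs_mul, abs_of_nonneg h3]
    norm_num
    exact h2
  rcases par (T^[v] x) with h' | h'
  · exact key _ _ 2 (h.step_even hG hv hT hM hx h').2.1 (by norm_num) le_rfl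
  · exact key _ _ 1 (h.step_odd hG hv hT hM hx h').2.1 (by norm_num) (by norm_num)

/-- three consecutive mixed times are impossible -/
theorem Setting.three (h : Setting Z S N M W R) {G : Finset ℤ} (hG : G ⊆ S) {v : ℕ} (hv : v + 2 ≤ R)
    (hT : Tight G v) (hM : Mixed G v) (hM2 : Mixed G (v + 2)) : ¬ Mixed G (v + 4) := by
  rintro ⟨⟨a, ha, hae⟩, -⟩
  have hT2 := h.tight_two hG (by omega) hT hM
  have h1 := h.mixed_range hG (by omega) hT hM ha
  have h2 := h.size_two hG (by omega) hT hM ha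
  have h3 := h.size_two hG hv hT2 hM2 ha
  have h4 := h.even_ge (iter_mem h.closed (h.sub (hG ha)) (v + 4)) hae
  have := h.c3
  have e : v + 2 + 2 = v + 4 := rfl
  rw [e] at h3
  linarith [h1.2]

end Pool.Agent.J6H8.Osc
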