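import Mathlib
import Pool.Agent.J6H8.Osc.Core

set_option autoImplicit false

/-!
Transport of differences of sums along the orbit.
-/

namespace Pool.Agent.J6H8.Osc

open Finset Pool.Agent.H319R2

/-- the difference of the sums at time `v` -/
def Df (X Y : Finset ℤ) (v : ℕ) : ℤ := ∑ x ∈ X, T^[v] x - ∑ y ∈ Y, T^[v] y

/-- the number of even members at time `v` -/
def Ev (X : Finset ℤ) (v : ℕ) : ℕ := (X.filter fun x => (T^[v] x) % 2 = 0).card

theorem Ev_le (X : Finset ℤ) (v : ℕ) : Ev X v ≤ X.card := card_filter_le _ _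

theorem Ev_sum (X : Finset ℤ) (v : ℕ) : (Ev X v : ℤ) = ∑ x ∈ X, if (T^[v] x) % 2 = 0 then (1 : ℤ) else 0 := by
  unfold Ev
  rw [card_filter]
  push_cast
  rfl

theorem Df_even {X Y : Finset ℤ} {v : ℕ} (hX : ∀ x ∈ X, (T^[v] x) % 2 = 0)
    (hY : ∀ x ∈ Y, (T^[v] x) % 2 = 0) : 2 * Df X Y (v + 1) = Df X Y v := by
  unfold Df
  rw [mul_sub, mul_sum, mul_sum]
  congr 1
  · apply sum_congr rfl
    intro x hx
    rw [Function.iterate_succ_apply']
    exact T_even (hX x hx)
  · apply sum_congr rfl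
    intro x hx
    rw [Function.iterate_succ_apply']
    exact T_even (hY x hx)

theorem Df_odd {X Y : Finset ℤ} {v : ℕ} (hc : X.card = Y.card) (hX : ∀ x ∈ X, (T^[v] x) % 2 = 1)
    (hY : ∀ x ∈ Y, (T^[v] x) % 2 = 1) : 2 * Df X Y (v + 1) = 3 * Df X Y v := by
  have key : ∀ A : Finset ℤ, (∀ x ∈ A, (T^[v] x) % 2 = 1) →
      2 * ∑ x ∈ A, T^[v + 1] x = 3 * ∑ x ∈ A, T^[v] x + A.card := by
    intro A hA
    have : ∀ x ∈ A, 2 * T^[v + 1] x = 3 * T^[v] x + 1 := by
      intro x hx
      rw [Function.iterate_succ_apply']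
      exact T_odd (hA x hx)
    rw [mul_sum, sum_congr rfl this, sum_add_distrib, ← mul_sum]
    simp
  unfold Df
  have h1 := key X hX
  have h2 := key Y hY
  rw [hc] at h1
  linarith

theorem Df_mixed {X Y : Finset ℤ} {v : ℕ} (hc : X.card = Y.card)
    (hX : ∀ x ∈ X, ((T^[v] x) % 2 = 0 → 4 * T^[v + 2] x = 3 * T^[v] x + 2) ∧
      ((T^[v] x) % 2 = 1 → 4 * T^[v + 2] x = 3 * T^[v] x + 1))
    (hY : ∀ x ∈ Y, ((T^[v] x) % 2 = 0 → 4 * T^[v + 2] x = 3 * T^[v] x + 2) ∧
      ((T^[v] x) % 2 = 1 → 4 * T^[v + 2] x = 3 * T^[v] x + 1)) :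
    4 * Df X Y (v + 2) = 3 * Df X Y v + ((Ev X v : ℤ) - Ev Y v) := by
  have key : ∀ A : Finset ℤ, (∀ x ∈ A, ((T^[v] x) % 2 = 0 → 4 * T^[v + 2] x = 3 * T^[v] x + 2) ∧
      ((T^[v] x) % 2 = 1 → 4 * T^[v + 2] x = 3 * T^[v] x + 1)) →
      4 * ∑ x ∈ A, T^[v + 2] x = 3 * ∑ x ∈ A, T^[v] x + A.card + Ev A v := by
    intro A hA
    have : ∀ x ∈ A, 4 * T^[v + 2] x = 3 * T^[v] x + 1 + if (T^[v] x) % 2 = 0 then (1 : ℤ) else 0 := by
      intro x hx
      rcases par (T^[v] x) with h | h
      · rw [if_pos h, (hA x hx).1 h]; ring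
      · rw [if_neg (by omega), (hA x hx).2 h]; ring
    rw [mul_sum, sum_congr rfl this, sum_add_distrib, sum_add_distrib, ← mul_sum, ← Ev_sum]
    simp
  unfold Df
  have h1 := key X hX
  have h2 := key Y hY
  rw [hc] at h1
  linarith

variable {Z S : Finset ℤ} {N M W : ℝ} {R : ℕ}

theorem Setting.Df_two (h : Setting Z S N M W R) {G X Y : Finset ℤ} (hG : G ⊆ S) (hX : X ⊆ G)
    (hY : Y ⊆ G) (hc : X.card = Y.card) {v : ℕ} (hv : v ≤ R) (hT : Tight G v) (hM : Mixed G v) :
    4 * Df X Y (v + 2) = 3 * Df X Y v + ((Ev X v : ℤ) - Ev Y v) := by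
  apply Df_mixed hc
  · intro x hx
    exact ⟨fun he => (h.step_even hG hv hT hM (hX hx) he).2.1,
      fun ho => (h.step_odd hG hv hT hM (hX hx) ho).2.1⟩
  · intro x hx
    exact ⟨fun he => (h.step_even hG hv hT hM (hY hx) he).2.1,
      fun ho => (h.step_odd hG hv hT hM (hY hx) ho).2.1⟩

theorem Df_one {G X Y : Finset ℤ} (hX : X ⊆ G) (hY : Y ⊆ G) (hc : X.card = Y.card) {v : ℕ}
    (hM : ¬ Mixed G v) : 2 * Df X Y (v + 1) = Df X Y v ∨ 2 * Df X Y (v + 1) = 3 * Df X Y v := by
  rcases not_mixed hM with h | h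
  · exact Or.inl (Df_even (fun x hx => h x (hX hx)) (fun x hx => h x (hY hx)))
  · exact Or.inr (Df_odd hc (fun x hx => h x (hX hx)) (fun x hx => h x (hY hx)))

/-- the state of a relation at a tight time -/
def Good (G X Y : Finset ℤ) (v : ℕ) : Prop :=
  Tight G v ∧ (Df X Y v = 0 ∨ ((Df X Y v = 1 ∨ Df X Y v = -1) ∧
    ∃ w, w + 2 = v ∧ Tight G w ∧ Mixed G w))

/-- a relation of value `±1` at a time following a mixed time is followed by a mixed time -/
theorem Good.mixed {G X Y : Finset ℤ} (hX : X ⊆ G) (hY : Y ⊆ G) (hc : X.card = Y.card) {v : ℕ}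
    (hD : Df X Y v = 1 ∨ Df X Y v = -1) : Mixed G v := by
  by_contra hM
  rcases Df_one hX hY hc hM with h | h <;> rcases hD with h' | h' <;> omega

/-- propagation of relations between at most four and at most four members -/
theorem Setting.propagate (h : Setting Z S N M W R) {G X Y : Finset ℤ} (hG : G ⊆ S) (hX : X ⊆ G)
    (hY : Y ⊆ G) (hc : X.card = Y.card) (h4 : X.card ≤ 4) (h0 : Df X Y 0 = 0) :
    ∀ v, v ≤ R → Good G X Y v ∨ ∃ w, w + 1 = v ∧ Good G X Y w ∧ Mixed G w := by
  intro v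
  induction v with
  | zero => intro _; exact Or.inl ⟨tight_zero G, Or.inl h0⟩
  | succ v ih =>
    intro hv
    rcases ih (by omega) with hgood | ⟨w, hw, hgood, hmix⟩
    · by_cases hM : Mixed G v
      · exact Or.inr ⟨v, rfl, hgood, hM⟩
      · left
        refine ⟨tight_one hgood.1 hM, Or.inl ?_⟩
        rcases hgood.2 with hD | ⟨hD, _⟩
        · rcases Df_one hX hY hc hM with h1 | h1 <;> omega
        · exact absurd (Good.mixed hX hY hc hD) hM
    · left
      subst hw
      have hwR : w ≤ R := by omega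
      have hT2 : Tight G (w + 2) := h.tight_two hG hwR hgood.1 hmix
      have hstep := h.Df_two hG hX hY hc hwR hgood.1 hmix
      have hE1 := Ev_le X w
      have hE2 := Ev_le Y w
      refine ⟨hT2, ?_⟩
      rcases hgood.2 with hD | ⟨hD, w', hw', hT', hM'⟩
      · rw [hD] at hstep
        have h5 : Df X Y (w + 2) = 0 ∨ Df X Y (w + 2) = 1 ∨ Df X Y (w + 2) = -1 := by omega
        rcases h5 with h5 | h5 | h5
        · exact Or.inl h5
        · exact Or.inr ⟨Or.inl h5, w, rfl, hgood.1, hmix⟩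
        · exact Or.inr ⟨Or.inr h5, w, rfl, hgood.1, hmix⟩
      · left
        by_contra hne
        have hne' : Df X Y (w + 2) ≠ 0 := hne
        have h5 : Df X Y (w + 2) = 1 ∨ Df X Y (w + 2) = -1 := by
          rcases hD with hD | hD <;> rw [hD] at hstep <;> omega
        have hM2 := Good.mixed hX hY hc h5
        subst hw'
        exact h.three hG (by omega) hT' hM' hmix hM2

/-- **No relation.** Two disjoint nonempty sets of at most four members of `S` with the same number
of elements have different sums. -/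
theorem Setting.no_relation (h : Setting Z S N M W R) {X Y : Finset ℤ} (hX : X ⊆ S) (hY : Y ⊆ S)
    (hc : X.card = Y.card) (h1 : 1 ≤ X.card) (h4 : X.card ≤ 4) (hdisj : Disjoint X Y)
    {P : ℕ} (hP : P + 4 ≤ R)
    (hord : ∀ v ≤ P, ∀ x ∈ S, ∀ y ∈ S, od v x = od v y → |x| < |y| → |T^[v] x| < |T^[v] y|)
    (hinj : ∀ x ∈ S, ∀ y ∈ S, |x| = |y| → x = y)
    {z0 : ℤ} (hz0e : z0 % 2 = 0) (hz0min : ∀ z ∈ Z, z % 2 = 0 → |z0| ≤ |z|)
    (hreach : ∀ x ∈ S, ∃ v ≤ P, T^[v] x = z0) :
    ∑ x ∈ X, x ≠ ∑ y ∈ Y, y := by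
  intro hsum
  set G := X ∪ Y with hG
  have hXG : X ⊆ G := subset_union_left
  have hYG : Y ⊆ G := subset_union_right
  have hGS : G ⊆ S := union_subset hX hY
  have h0 : Df X Y 0 = 0 := by
    unfold Df
    simpa using sub_eq_zero.2 hsum
  -- the largest member
  have hGne : G.Nonempty := by
    have : X.Nonempty := card_pos.1 h1
    exact this.mono hXG
  obtain ⟨e, heG, hemax⟩ := exists_max_image G (fun x => |x|) hGne
  obtain ⟨v, hvP, hve⟩ := hreach e (hGS heG)
  have hlt : ∀ x ∈ G, x ≠ e → |x| < |e| := by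
    intro x hx hne
    rcases lt_or_eq_of_le (hemax x hx) with h' | h'
    · exact h'
    · exact absurd (hinj x (hGS hx) e (hGS heG) h') hne
  have hvR : v ≤ R := by omega
  rcases h.propagate hGS hXG hYG hc h4 h0 v hvR with hgood | ⟨w, hw, hgood, hmix⟩
  · -- tight time
    have hodd : ∀ x ∈ G, x ≠ e → (T^[v] x) % 2 = 1 := by
      intro x hx hne
      rcases par (T^[v] x) with h' | h'
      · exfalso
        have h5 := hord v hvP x (hGS hx) e (hGS heG) (hgood.1 x hx e heG) (hlt x hx hne)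
        have h6 := hz0min _ (iter_mem h.closed (h.sub (hGS hx)) v) h'
        rw [hve] at h5
        omega
      · exact h'
    have hee : (T^[v] e) % 2 = 0 := by rw [hve]; exact hz0e
    -- the other set is nonempty
    have hother : ∃ y ∈ G, y ≠ e := by
      have hXne : X.Nonempty := card_pos.1 h1
      have hYne : Y.Nonempty := card_pos.1 (by omega)
      obtain ⟨a, ha⟩ := hXne
      obtain ⟨b, hb⟩ := hYne
      by_cases hae : a = e
      · refine ⟨b, hYG hb, ?_⟩
        rintro rfl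
        exact disjoint_left.1 hdisj ha (hae ▸ hb)
      · exact ⟨a, hXG ha, hae⟩
    obtain ⟨y, hyG, hye⟩ := hother
    have hmix : Mixed G v := ⟨⟨e, heG, hee⟩, ⟨y, hyG, hodd y hyG hye⟩⟩
    have hstep := h.Df_two hGS hXG hYG hc hvR hgood.1 hmix
    -- the difference of the numbers of even members is `±1`
    have hEv : ∀ A : Finset ℤ, A ⊆ G → (e ∈ A → Ev A v = 1) ∧ (e ∉ A → Ev A v = 0) := by
      intro A hA
      constructor
      · intro he
        unfold Ev
        rw [card_eq_one]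
        refine ⟨e, ?_⟩
        ext x
        rw [mem_filter, mem_singleton]
        constructor
        · rintro ⟨hxA, hx2⟩
          by_contra hne
          have := hodd x (hA hxA) hne
          omega
        · rintro rfl
          exact ⟨he, hee⟩
      · intro he
        unfold Ev
        rw [card_eq_zero, filter_eq_empty_iff]
        intro x hxA hx2
        have hne : x ≠ e := by rintro rfl; exact he hxA
        have := hodd x (hA hxA) hne
        omega
    have hD1 : ((Ev X v : ℤ) - Ev Y v = 1) ∨ ((Ev X v : ℤ) - Ev Y v = -1) := by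
      rcases mem_union.1 heG with he | he
      · left
        rw [(hEv X hXG).1 he, (hEv Y hYG).2 (disjoint_left.1 hdisj he)]
        norm_num
      · right
        rw [(hEv Y hYG).1 he, (hEv X hXG).2 (disjoint_right.1 hdisj he)]
        norm_num
    rcases hgood.2 with hD | ⟨hD, w', hw', hT', hM'⟩
    · rw [hD] at hstep
      omega
    · have h5 : Df X Y (v + 2) = 1 ∨ Df X Y (v + 2) = -1 := by
        rcases hD with hD | hD <;> rw [hD] at hstep <;> omega
      have hM2 := Good.mixed hXG hYG hc h5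
      subst hw'
      exact h.three hGS (by omega) hT' hM' hmix hM2
  · -- the time after a mixed time
    subst hw
    have hwP : w ≤ P := by omega
    have hwR : w ≤ R := by omega
    have e1 : T^[w + 1] e = T (T^[w] e) := Function.iterate_succ_apply' _ _ _
    have hmix' := hmix
    obtain ⟨⟨a, haG, hae⟩, -⟩ := hmix
    have heo : (T^[w] e) % 2 = 1 := by
      rcases par (T^[w] e) with h' | h'
      · have := (h.step_even hGS hwR hgood.1 hmix' heG h').1
        rw [hve] at this
        omega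
      · exact h'
    have hane : a ≠ e := by
      rintro rfl
      omega
    have h5 := hord w hwP a (hGS haG) e (hGS heG) (hgood.1 a haG e heG) (hlt a haG hane)
    have h6 := hz0min _ (iter_mem h.closed (h.sub (hGS haG)) w) hae
    have h7 := T_odd heo
    rw [← e1, hve] at h7
    -- |z0| > |T^w e|
    rcases abs_cases z0 with h8 | h8 <;> rcases abs_cases (T^[w] e) with h9 | h9 <;>
      rcases abs_cases (T^[w] a) with h10 | h10 <;> omega

end Pool.Agent.J6H8.Osc
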