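import Mathlib
import Pool.Agent.J6H8.Osc.Trans
import Pool.Agent.J6H8.Osc.Ent2

set_option autoImplicit false

/-!
The 4-subsets are distinguished by the numbers of even members at the mixed times.
-/

namespace Pool.Agent.J6H8.Osc

open Finset Pool.Agent.H319R2

variable {Z S : Finset ℤ} {N M W : ℝ} {R : ℕ}

theorem Setting.transport (h : Setting Z S N M W R) {X Y : Finset ℤ} (hX : X ⊆ S) (hY : Y ⊆ S)
    (hc : X.card = Y.card) (n : ℕ) (hn : n ≤ R)
    (hE : ∀ v < n, Tight S v → Mixed S v → Ev X v = Ev Y v) : ∀ v ≤ n,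
    (Tight S v ∧ ∃ o : ℕ, 2 ^ v * Df X Y v = 3 ^ o * Df X Y 0) ∨
    ∃ w, w + 1 = v ∧ Tight S w ∧ Mixed S w ∧ ∃ o : ℕ, 2 ^ w * Df X Y w = 3 ^ o * Df X Y 0 := by
  intro v
  induction v with
  | zero => intro _; exact Or.inl ⟨tight_zero S, 0, by simp⟩
  | succ v ih =>
    intro hv
    rcases ih (by omega) with ⟨hT, o, ho⟩ | ⟨w, hw, hT, hM, o, ho⟩
    · by_cases hM : Mixed S v
      · exact Or.inr ⟨v, rfl, hT, hM, o, ho⟩
      · left
        refine ⟨tight_one hT hM, ?_⟩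
        rcases Df_one hX hY hc hM with h1 | h1
        · exact ⟨o, by rw [pow_succ, ← ho, ← h1]; ring⟩
        · exact ⟨o + 1, by
            rw [pow_succ 3, pow_succ 2]
            linear_combination (2 : ℤ) ^ v * h1 + 3 * ho⟩
    · left
      subst hw
      have hwR : w ≤ R := by omega
      refine ⟨h.tight_two (Subset.refl S) hwR hT hM, o + 1, ?_⟩
      have hstep := h.Df_two (Subset.refl S) hX hY hc hwR hT hM
      rw [hE w (by omega) hT hM, sub_self, add_zero] at hstep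
      have e : w + 1 + 1 = w + 2 := rfl
      rw [e, pow_add 2 w 2, pow_succ 3]
      linear_combination (2 : ℤ) ^ w * hstep + 3 * ho

/-- **Injectivity.** -/
theorem Setting.inj4 (h : Setting Z S N M W R) (n : ℕ) (hn1 : 1 ≤ n) (hn : n ≤ R)
    (hbig : 16 * M < 2 ^ n) {P : ℕ} (hP : P + 4 ≤ R)
    (hord : ∀ v ≤ P, ∀ x ∈ S, ∀ y ∈ S, od v x = od v y → |x| < |y| → |T^[v] x| < |T^[v] y|)
    (hinj : ∀ x ∈ S, ∀ y ∈ S, |x| = |y| → x = y)
    {z0 : ℤ} (hz0e : z0 % 2 = 0) (hz0min : ∀ z ∈ Z, z % 2 = 0 → |z0| ≤ |z|)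
    (hreach : ∀ x ∈ S, ∃ v ≤ P, T^[v] x = z0) {X Y : Finset ℤ} (hX : X ∈ powersetCard 4 S)
    (hY : Y ∈ powersetCard 4 S) (hE : ∀ v < n, Tight S v → Mixed S v → Ev X v = Ev Y v) : X = Y := by
  rw [mem_powersetCard] at hX hY
  have hc : X.card = Y.card := by rw [hX.2, hY.2]
  have hdvd : (2 : ℤ) ^ (n - 1) ∣ Df X Y 0 := by
    have hcop : ∀ k o : ℕ, IsCoprime ((2 : ℤ) ^ k) (3 ^ o) := fun k o => by
      apply IsCoprime.pow
      exact ⟨-1, 1, by norm_num⟩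
    rcases h.transport hX.1 hY.1 hc n hn hE n le_rfl with ⟨-, o, ho⟩ | ⟨w, hw, -, -, o, ho⟩
    · have h1 : (2 : ℤ) ^ n ∣ 3 ^ o * Df X Y 0 := ⟨_, ho.symm⟩
      exact (pow_dvd_pow 2 (by omega)).trans ((hcop n o).dvd_of_dvd_mul_left h1)
    · have h1 : (2 : ℤ) ^ w ∣ 3 ^ o * Df X Y 0 := ⟨_, ho.symm⟩
      exact (pow_dvd_pow 2 (by omega)).trans ((hcop w o).dvd_of_dvd_mul_left h1)
  have hsumle : ∀ A : Finset ℤ, A ⊆ S → A.card = 4 → |((∑ x ∈ A, x : ℤ) : ℝ)| ≤ 4 * M := by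
    intro A hA hA4
    push_cast
    refine (abs_sum_le_sum_abs _ _).trans ?_
    have : ∑ x ∈ A, |(x : ℝ)| ≤ ∑ _x ∈ A, M := sum_le_sum fun x hx => h.hi x (h.sub (hA hx))
    refine this.trans ?_
    rw [sum_const, hA4]
    simp
  have hzero : Df X Y 0 = 0 := by
    apply Int.eq_zero_of_abs_lt_dvd hdvd
    have h1 := hsumle X hX.1 hX.2
    have h2 := hsumle Y hY.1 hY.2
    have h3 : |((Df X Y 0 : ℤ) : ℝ)| < 2 ^ (n - 1) := by
      have e : Df X Y 0 = ∑ x ∈ X, x - ∑ y ∈ Y, y := by simp [Df]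
      rw [e, Int.cast_sub]
      have h4 : (2 : ℝ) ^ n = 2 * 2 ^ (n - 1) := by
        rw [← pow_succ']; congr 1; omega
      have h5 := abs_sub ((∑ x ∈ X, x : ℤ) : ℝ) ((∑ y ∈ Y, y : ℤ) : ℝ)
      linarith
    exact_mod_cast h3
  by_contra hne
  have hs1 : ∑ x ∈ X, x = ∑ y ∈ Y, y := by
    have : ∑ x ∈ X, x - ∑ y ∈ Y, y = 0 := by simpa [Df] using hzero
    omega
  have c1 := card_sdiff_add_card_inter X Y
  have c2 := card_sdiff_add_card_inter Y X
  rw [inter_comm Y X] at c2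
  have hcc : (X \ Y).card = (Y \ X).card := by omega
  have hpos : 1 ≤ (X \ Y).card := by
    by_contra h0
    have h0' : (X \ Y).card = 0 := by omega
    rw [card_eq_zero, sdiff_eq_empty_iff_subset] at h0'
    exact hne (eq_of_subset_of_card_le h0' (by omega))
  have h4 : (X \ Y).card ≤ 4 := by omega
  apply h.no_relation (sdiff_subset.trans hX.1) (sdiff_subset.trans hY.1) hcc hpos h4
    (disjoint_sdiff_sdiff) hP hord hinj hz0e hz0min hreach
  have s1 := sum_inter_add_sum_sdiff X Y (fun x : ℤ => x)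
  have s2 := sum_inter_add_sum_sdiff Y X (fun x : ℤ => x)
  rw [inter_comm Y X] at s2
  linarith

end Pool.Agent.J6H8.Osc
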