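import Mathlib
import Pool.Agent.J6H8.Osc.Inj

set_option autoImplicit false

/-!
The number of mixed times is large compared with the logarithm of the number of members.
-/

namespace Pool.Agent.J6H8.Osc

open Finset Pool.Agent.H319R2

variable {Z S : Finset ℤ} {N M W : ℝ} {R : ℕ}

theorem log_of_entropy {k : ℕ} (hk : 12 ≤ k) {Q : ℝ}
    (h : (k.choose 4 : ℝ) * Real.log (k.choose 4) ≤ (k : ℝ) ^ 4 / 24 * Q) :
    4 * Real.log k ≤ Q + 28 := by
  set K : ℝ := (k : ℝ) with hK
  have hK12 : 12 ≤ K := by rw [hK]; exact_mod_cast hk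
  set C : ℝ := (k.choose 4 : ℝ) with hC
  have hCe : 24 * C = K * (K - 1) * (K - 2) * (K - 3) := by
    have h1 := Nat.descFactorial_eq_factorial_mul_choose k 4
    have h2 : ((k.descFactorial 4 : ℕ) : ℝ) = 24 * C := by
      rw [h1, hC]; push_cast; norm_num [Nat.factorial]
    rw [← h2]
    simp only [Nat.descFactorial_succ, Nat.descFactorial_zero]
    rw [hK]
    push_cast [Nat.cast_sub (show 3 ≤ k by omega), Nat.cast_sub (show 2 ≤ k by omega),
      Nat.cast_sub (show 1 ≤ k by omega)]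
    simp
    ring
  have hC1 : K ^ 4 / 24 * (1 - 6 / K) ≤ C := by
    have e : K ^ 4 / 24 * (1 - 6 / K) = (K ^ 4 - 6 * K ^ 3) / 24 := by field_simp
    rw [e]
    nlinarith
  have hC2 : K ^ 4 / 48 ≤ C := by
    have e : K * (K - 1) * (K - 2) * (K - 3) = K ^ 4 - 6 * K ^ 3 + 11 * K ^ 2 - 6 * K := by ring
    rw [e] at hCe
    have : K ^ 4 = K * K ^ 3 := by ring
    have h3 : 12 * K ^ 3 ≤ K * K ^ 3 := mul_le_mul_of_nonneg_right hK12 (by positivity)
    nlinarith
  have hC3 : C ≤ K ^ 4 := by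
    have h1 := Nat.choose_le_pow_div (α := ℝ) 4 k
    refine h1.trans ?_
    rw [← hK]
    apply div_le_self (by positivity)
    norm_num [Nat.factorial]
  have hK0 : 0 < K := by linarith
  have hCpos : 0 < C := lt_of_lt_of_le (by positivity) hC2
  have hC1' : 1 ≤ C := by
    refine le_trans ?_ hC2
    rw [le_div_iff₀ (by norm_num)]
    calc (1 : ℝ) * 48 ≤ 12 ^ 4 := by norm_num
      _ ≤ K ^ 4 := pow_le_pow_left₀ (by norm_num) hK12 4
  have hlogC : 0 ≤ Real.log C := Real.log_nonneg hC1'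
  -- (1 - 6/K) log C ≤ Q
  have h1 : (1 - 6 / K) * Real.log C ≤ Q := by
    have h2 : K ^ 4 / 24 * (1 - 6 / K) * Real.log C ≤ K ^ 4 / 24 * Q :=
      (mul_le_mul_of_nonneg_right hC1 hlogC).trans h
    have h3 : 0 < K ^ 4 / 24 := by positivity
    rw [mul_assoc] at h2
    exact le_of_mul_le_mul_left h2 h3
  have h2 : Real.log C ≤ 4 * Real.log K := by
    have := Real.log_le_log hCpos hC3
    rwa [Real.log_pow] at this
  have h3 : 4 * Real.log K - Real.log 48 ≤ Real.log C := by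
    have := Real.log_le_log (by positivity) hC2
    rwa [Real.log_div (by positivity) (by norm_num), Real.log_pow] at this
  have h4 : Real.log K ≤ K := by
    have := Real.log_le_sub_one_of_pos hK0
    linarith
  have h5 : 6 / K * Real.log C ≤ 24 := by
    have : 6 / K * Real.log C ≤ 6 / K * (4 * K) :=
      mul_le_mul_of_nonneg_left (by linarith) (by positivity)
    have e : 6 / K * (4 * K) = 24 := by field_simp; norm_num
    linarith
  have h6 : Real.log 48 ≤ 4 := by
    rw [Real.log_le_iff_le_exp (by norm_num)]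
    have h7 : (2.7 : ℝ) ^ 4 ≤ Real.exp 1 ^ 4 := by
      apply pow_le_pow_left₀ (by norm_num)
      have := Real.exp_one_gt_d9
      linarith
    rw [← Real.exp_nat_mul] at h7
    norm_num at h7 ⊢
    linarith
  nlinarith

/-- the tight mixed times before `n` -/
noncomputable def MV (S : Finset ℤ) (n : ℕ) : Finset ℕ := by
  classical
  exact (range n).filter fun v => Tight S v ∧ Mixed S v

theorem mem_MV {S : Finset ℤ} {n v : ℕ} : v ∈ MV S n ↔ v < n ∧ Tight S v ∧ Mixed S v := by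
  classical
  unfold MV
  rw [mem_filter, mem_range]

/-- **Lower bound for the number of mixed times.** -/
theorem Setting.count (h : Setting Z S N M W R) (hS : 12 ≤ S.card) (n : ℕ) (hn1 : 1 ≤ n) (hn : n ≤ R)
    (hbig : 16 * M < 2 ^ n) {P : ℕ} (hP : P + 4 ≤ R)
    (hord : ∀ v ≤ P, ∀ x ∈ S, ∀ y ∈ S, od v x = od v y → |x| < |y| → |T^[v] x| < |T^[v] y|)
    (hinj : ∀ x ∈ S, ∀ y ∈ S, |x| = |y| → x = y)
    {z0 : ℤ} (hz0e : z0 % 2 = 0) (hz0min : ∀ z ∈ Z, z % 2 = 0 → |z0| ≤ |z|)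
    (hreach : ∀ x ∈ S, ∃ v ≤ P, T^[v] x = z0) :
    4 * Real.log S.card ≤ 1.4077 * (MV S n).card + 28 := by
  classical
  apply log_of_entropy hS
  apply entropy S (MV S n) (fun v => S.filter fun x => (T^[v] x) % 2 = 0) (by omega)
  · intro v hv
    rw [mem_MV] at hv
    obtain ⟨-, -, ⟨a, ha, hae⟩, ⟨b, hb, hbo⟩⟩ := hv
    refine ⟨filter_subset _ _, ⟨a, mem_filter.2 ⟨ha, hae⟩⟩, ⟨b, ?_⟩⟩
    rw [mem_sdiff, mem_filter]
    refine ⟨hb, fun h' => ?_⟩
    have := h'.2
    omega
  · intro X hX Y hY hXY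
    apply h.inj4 n hn1 hn hbig hP hord hinj hz0e hz0min hreach hX hY
    intro v hv hT hM
    have h1 := hXY v (mem_MV.2 ⟨hv, hT, hM⟩)
    have e : ∀ A : Finset ℤ, A ⊆ S → (A ∩ S.filter fun x => (T^[v] x) % 2 = 0).card = Ev A v := by
      intro A hA
      unfold Ev
      congr 1
      ext x
      rw [mem_inter, mem_filter, mem_filter]
      constructor
      · rintro ⟨h2, -, h3⟩
        exact ⟨h2, h3⟩
      · rintro ⟨h2, h3⟩
        exact ⟨h2, hA h2, h3⟩
    rw [mem_powersetCard] at hX hY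
    rw [e X hX.1, e Y hY.1] at h1
    exact h1

end Pool.Agent.J6H8.Osc
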