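import Mathlib
import Pool.Agent.H547R3.Osc3

set_option autoImplicit false

/-!
Many elements of a cycle in a short window, with separated logarithms.
-/

namespace Pool.Agent.J6H8.Osc

open Finset Pool.Agent.H319R2

theorem near_log {x0 : ℤ} {p : ℕ} {N : ℝ} (hN : 1 ≤ N)
    (hlo : ∀ j, N ≤ |((T^[j] x0 : ℤ) : ℝ)|) {q r : ℕ} (hq : 0 < q) (hqp : q ≤ p)
    (hform : |(q : ℝ) * Real.log 2 - r * Real.log 3| ≤ q / (2 * N)) {j : ℕ} (hj : j < q) :
    |Real.log |((T^[j] x0 : ℤ) : ℝ)| - (Real.log |(x0 : ℝ)| +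
      (((q : ℤ) * od j x0 - j * r : ℤ) : ℝ) / q * Real.log 3)| ≤ p / N := by
  have hqr : (0 : ℝ) < q := by exact_mod_cast hq
  have hN0 : 0 < N := by linarith
  have hjq : (j : ℝ) ≤ q := by exact_mod_cast hj.le
  have hqp' : (q : ℝ) ≤ p := by exact_mod_cast hqp
  have h1 := log_iter hN hlo j
  have h2 : (od j x0 : ℝ) * (1 / (2 * N)) ≤ p / (2 * N) := by
    rw [mul_one_div]
    apply div_le_div_of_nonneg_right _ (by positivity)
    have : (od j x0 : ℝ) ≤ j := by exact_mod_cast od_le j x0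
    linarith
  have h3 : |(j : ℝ) / q * ((q : ℝ) * Real.log 2 - r * Real.log 3)| ≤ p / (2 * N) := by
    rw [abs_mul, abs_of_nonneg (show 0 ≤ (j : ℝ) / q by positivity)]
    calc (j : ℝ) / q * |(q : ℝ) * Real.log 2 - r * Real.log 3| ≤ 1 * (q / (2 * N)) := by
          apply mul_le_mul _ hform (abs_nonneg _) (by norm_num)
          rw [div_le_one hqr]; exact hjq
      _ ≤ p / (2 * N) := by
          rw [one_mul]
          exact div_le_div_of_nonneg_right hqp' (by positivity)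
  have e : Real.log |((T^[j] x0 : ℤ) : ℝ)| - (Real.log |(x0 : ℝ)| +
      (((q : ℤ) * od j x0 - j * r : ℤ) : ℝ) / q * Real.log 3) =
      (Real.log |((T^[j] x0 : ℤ) : ℝ)| - Real.log |(x0 : ℝ)| + j * Real.log 2 - od j x0 * Real.log 3) -
      (j : ℝ) / q * ((q : ℝ) * Real.log 2 - r * Real.log 3) := by
    push_cast
    field_simp
    ring
  rw [e]
  refine (abs_sub _ _).trans ?_
  have h4 : (p : ℝ) / (2 * N) + p / (2 * N) = p / N := by field_simp; ring
  linarith

theorem exists_S {x0 : ℤ} {p : ℕ} {N M : ℝ} (hN : 1 ≤ N)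
    (hlo : ∀ j, N ≤ |((T^[j] x0 : ℤ) : ℝ)|) (hhi : ∀ j, |((T^[j] x0 : ℤ) : ℝ)| ≤ M) {α ω : ℝ}
    (hα1 : α + ω - Real.log 3 < Real.log N) (hα2 : Real.log M < α + Real.log 3) {q r : ℕ}
    (hq : 0 < q) (hqp : q ≤ p) (hcop : IsCoprime (r : ℤ) (q : ℤ))
    (hform : |(q : ℝ) * Real.log 2 - r * Real.log 3| ≤ q / (2 * N))
    (hsep : 2 * ((p : ℝ) / N) < Real.log 3 / q) :
    ∃ S : Finset ℤ, (∀ x ∈ S, ∃ j, T^[j] x0 = x) ∧
      (∀ x ∈ S, α ≤ Real.log |(x : ℝ)| ∧ Real.log |(x : ℝ)| ≤ α + ω) ∧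
      (∀ x ∈ S, ∀ y ∈ S, x ≠ y →
        Real.log 3 / q - 2 * ((p : ℝ) / N) ≤ abs (Real.log |(x : ℝ)| - Real.log |(y : ℝ)|)) ∧
      (ω - 2 * ((p : ℝ) / N)) * q / Real.log 3 - 1 ≤ S.card := by
  classical
  have hl3 : 0 < Real.log 3 := Real.log_pos (by norm_num)
  have hqr : (0 : ℝ) < q := by exact_mod_cast hq
  have hN0 : 0 < N := by linarith
  set η : ℝ := (p : ℝ) / N with hη
  set L : ℝ := Real.log |(x0 : ℝ)| with hL
  set k1 : ℤ := ⌈(α + η - L) * q / Real.log 3⌉ with hk1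
  set k2 : ℤ := ⌊(α + ω - η - L) * q / Real.log 3⌋ with hk2
  have hex : ∀ k ∈ Finset.Icc k1 k2, ∃ y : ℤ, (∃ j, T^[j] x0 = y) ∧
      |Real.log |(y : ℝ)| - (L + (k : ℝ) / q * Real.log 3)| ≤ η := by
    intro k hk
    rw [Finset.mem_Icc] at hk
    have hka : α + η - L ≤ (k : ℝ) / q * Real.log 3 := by
      have h1 : (α + η - L) * q / Real.log 3 ≤ k := Int.ceil_le.1 hk.1
      rw [div_le_iff₀ hl3] at h1
      rw [div_mul_eq_mul_div, le_div_iff₀ hqr]
      exact h1
    have hkb : (k : ℝ) / q * Real.log 3 ≤ α + ω - η - L := by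
      have h1 : (k : ℝ) ≤ (α + ω - η - L) * q / Real.log 3 := Int.le_floor.1 hk.2
      rw [le_div_iff₀ hl3] at h1
      rw [div_mul_eq_mul_div, div_le_iff₀ hqr]
      exact h1
    obtain ⟨a, b, hab⟩ := hcop
    set j : ℕ := ((-k * a) % (q : ℤ)).toNat with hj
    have hqz : (0 : ℤ) < q := by exact_mod_cast hq
    have hj0 : (j : ℤ) = (-k * a) % (q : ℤ) := Int.toNat_of_nonneg (Int.emod_nonneg _ hqz.ne')
    have hjq : j < q := by
      have := Int.emod_lt_of_pos (-k * a) hqz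
      omega
    obtain ⟨l, hl⟩ : ∃ l : ℤ, (q : ℤ) * od j x0 - j * r = k + q * l := by
      have h1 := Int.emod_add_mul_ediv (-k * a) (q : ℤ)
      refine ⟨od j x0 + (-k * a) / q * r - k * b, ?_⟩
      rw [← hj0] at h1
      linear_combination (-(r : ℤ)) * h1 + k * hab
    have hn := near_log hN hlo hq hqp hform hjq
    rw [hl] at hn
    have e1 : (((k + q * l : ℤ) : ℝ)) / q * Real.log 3 = (k : ℝ) / q * Real.log 3 + l * Real.log 3 := by
      push_cast; field_simp
    rw [e1] at hn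
    have hlow : Real.log N ≤ Real.log |((T^[j] x0 : ℤ) : ℝ)| := Real.log_le_log hN0 (hlo j)
    have hupp : Real.log |((T^[j] x0 : ℤ) : ℝ)| ≤ Real.log M :=
      Real.log_le_log (lt_of_lt_of_le hN0 (hlo j)) (hhi j)
    rw [abs_le] at hn
    have hl0 : l = 0 := by
      rcases lt_trichotomy l 0 with h' | h' | h'
      · exfalso
        have h2 : (l : ℝ) ≤ -1 := by exact_mod_cast (by omega : l ≤ -1)
        have h3 : (l : ℝ) * Real.log 3 ≤ -1 * Real.log 3 := mul_le_mul_of_nonneg_right h2 hl3.le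
        linarith [hn.2]
      · exact h'
      · exfalso
        have h2 : (1 : ℝ) ≤ l := by exact_mod_cast (by omega : 1 ≤ l)
        have h3 : 1 * Real.log 3 ≤ (l : ℝ) * Real.log 3 := mul_le_mul_of_nonneg_right h2 hl3.le
        linarith [hn.1]
    refine ⟨T^[j] x0, ⟨j, rfl⟩, ?_⟩
    rw [hl0] at hn
    rw [abs_le]
    push_cast at hn
    constructor <;> linarith [hn.1, hn.2]
  choose! y hy1 hy2 using hex
  have hsep2 : ∀ k ∈ Finset.Icc k1 k2, ∀ k' ∈ Finset.Icc k1 k2, k ≠ k' →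
      Real.log 3 / q - 2 * η ≤ abs (Real.log |(y k : ℝ)| - Real.log |(y k' : ℝ)|) := by
    have main : ∀ k ∈ Finset.Icc k1 k2, ∀ k' ∈ Finset.Icc k1 k2, k < k' →
        Real.log 3 / q - 2 * η ≤ Real.log |(y k' : ℝ)| - Real.log |(y k : ℝ)| := by
      intro k hk k' hk' hlt
      have h1 := hy2 k hk
      have h2 := hy2 k' hk'
      rw [abs_le] at h1 h2
      have h3 : (1 : ℝ) ≤ (k' : ℝ) - k := by
        have : (1 : ℤ) ≤ k' - k := by omega
        exact_mod_cast this
      have h4 : Real.log 3 / q ≤ (k' : ℝ) / q * Real.log 3 - (k : ℝ) / q * Real.log 3 := by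
        have e : (k' : ℝ) / q * Real.log 3 - (k : ℝ) / q * Real.log 3 = ((k' : ℝ) - k) * (Real.log 3 / q) := by
          field_simp
        rw [e]
        have : 0 < Real.log 3 / q := by positivity
        nlinarith
      linarith [h1.2, h2.1]
    intro k hk k' hk' hne
    rcases lt_or_gt_of_ne hne with h | h
    · have := main k hk k' hk' h
      rw [abs_sub_comm]
      exact this.trans (le_abs_self _)
    · have := main k' hk' k hk h
      exact this.trans (le_abs_self _)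
  have hinj : Set.InjOn y (Finset.Icc k1 k2 : Finset ℤ) := by
    intro k hk k' hk' hkk
    by_contra hne
    have := hsep2 k (by simpa using hk) k' (by simpa using hk') hne
    rw [hkk, sub_self, abs_zero] at this
    linarith
  refine ⟨(Finset.Icc k1 k2).image y, ?_, ?_, ?_, ?_⟩
  · intro x hx
    rw [mem_image] at hx
    obtain ⟨k, hk, rfl⟩ := hx
    exact hy1 k hk
  · intro x hx
    rw [mem_image] at hx
    obtain ⟨k, hk, rfl⟩ := hx
    have h1 := hy2 k hk
    rw [Finset.mem_Icc] at hk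
    have hka : α + η - L ≤ (k : ℝ) / q * Real.log 3 := by
      have h1 : (α + η - L) * q / Real.log 3 ≤ k := Int.ceil_le.1 hk.1
      rw [div_le_iff₀ hl3] at h1
      rw [div_mul_eq_mul_div, le_div_iff₀ hqr]
      exact h1
    have hkb : (k : ℝ) / q * Real.log 3 ≤ α + ω - η - L := by
      have h1 : (k : ℝ) ≤ (α + ω - η - L) * q / Real.log 3 := Int.le_floor.1 hk.2
      rw [le_div_iff₀ hl3] at h1
      rw [div_mul_eq_mul_div, div_le_iff₀ hqr]
      exact h1
    rw [abs_le] at h1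
    constructor <;> linarith [h1.1, h1.2]
  · intro x hx x' hx' hne
    rw [mem_image] at hx hx'
    obtain ⟨k, hk, rfl⟩ := hx
    obtain ⟨k', hk', rfl⟩ := hx'
    apply hsep2 k hk k' hk'
    rintro rfl
    exact hne rfl
  · rw [card_image_of_injOn hinj, Int.card_Icc]
    have h1 : ((k2 + 1 - k1 : ℤ) : ℝ) ≤ ((k2 + 1 - k1).toNat : ℝ) := by
      have : k2 + 1 - k1 ≤ ((k2 + 1 - k1).toNat : ℤ) := Int.self_le_toNat _
      exact_mod_cast this
    refine le_trans ?_ h1
    push_cast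
    have h2 := Int.lt_floor_add_one ((α + ω - η - L) * q / Real.log 3)
    have h3 := Int.ceil_lt_add_one ((α + η - L) * q / Real.log 3)
    rw [← hk2] at h2
    rw [← hk1] at h3
    have e : (ω - 2 * η) * q / Real.log 3 = (α + ω - η - L) * q / Real.log 3 -
      (α + η - L) * q / Real.log 3 := by ring
    rw [e]
    linarith

end Pool.Agent.J6H8.Osc
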