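import Mathlib
import Pool.Agent.H547R3.Osc3
import Pool.Agent.J6H8.Sal.Measure
import Pool.Agent.J6H8.Osc.SetS
import Pool.Agent.J6H8.Osc.Count

set_option autoImplicit false

/-!
Sizes of windows and numbers of mixed times.
-/

namespace Pool.Agent.J6H8.Osc

open Finset Pool.Agent.H319R2 Pool.Agent.H547R3 Filter

theorem window_bound' {B θ : ℝ} (hB3 : 3 ≤ B) (hB : Real.log B - Real.log 3 < Real.log 3 * θ) :
    ∃ C γ N0 : ℝ, 0 < C ∧ 0 < γ ∧ γ < θ ∧ 1 ≤ N0 ∧ ∀ N : ℝ, N0 ≤ N → ∀ Z : Finset ℤ,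
      (∀ x ∈ Z, ∀ j, T^[j] x ∈ Z) → (∀ x ∈ Z, N ≤ |(x : ℝ)| ∧ |(x : ℝ)| ≤ B * N) →
      (Z.card : ℝ) ≤ C * N ^ γ := by
  classical
  have hl2 : 0 < Real.log 2 := Real.log_pos (by norm_num)
  have hl3 : 0 < Real.log 3 := Real.log_pos (by norm_num)
  have hB0 : 0 < B := by linarith
  set δ : ℝ := Real.log B - Real.log 3 with hδ
  have hδ0 : 0 ≤ δ := by
    have := Real.log_le_log (by norm_num : (0 : ℝ) < 3) hB3
    rw [hδ]; linarith
  set κ : ℝ := θ - δ / Real.log 3 with hκ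
  have hκ0 : 0 < κ := by
    rw [hκ, sub_pos, div_lt_iff₀ hl3]; linarith
  set τ : ℝ := κ * Real.log 3 / 16 with hτdef
  have hτ : 0 < τ := by positivity
  obtain ⟨q, h, hq, hQ, hcop, hα⟩ := exists_approx (12 / κ)
  have hqr : (0 : ℝ) < q := by exact_mod_cast hq
  set r : ℝ := (δ / 2 + 2 * τ) / Real.log 3 with hr
  have hr0 : 0 < r := by positivity
  have h2r : 2 * r = δ / Real.log 3 + κ / 4 := by
    rw [hr, hτdef]; field_simp; ring
  have h3q : 3 / (q : ℝ) ≤ κ / 4 := by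
    rw [div_le_iff₀ hκ0] at hQ
    rw [div_le_iff₀ hqr]
    linarith
  set γ : ℝ := 2 * r + 3 / q with hγ
  have hγ0 : 0 < γ := by positivity
  have hγ1 : γ < θ := by
    rw [hγ, h2r]
    have : δ / Real.log 3 = θ - κ := by rw [hκ]; ring
    linarith
  set c0 : ℝ := 2 * r * q + 3 with hc0
  have hc00 : 0 < c0 := by positivity
  -- the threshold
  have hlim : ∀ᶠ N : ℝ in atTop, Real.log (8 * B * N) / Real.log 2 ≤ 2 * N * τ ∧ 1 / (2 * N) ≤ τ ∧ 1 ≤ N := by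
    have h1 : Tendsto (fun N : ℝ => Real.log (8 * B * N) / N) atTop (nhds 0) := by
      have h2 : Tendsto (fun N : ℝ => Real.log (8 * B) / N + Real.log N / N) atTop (nhds (0 + 0)) := by
        apply Tendsto.add
        · exact Tendsto.div_atTop tendsto_const_nhds tendsto_id
        · have := Real.isLittleO_log_id_atTop.tendsto_div_nhds_zero
          exact this
      rw [add_zero] at h2
      refine h2.congr' ?_
      filter_upwards [eventually_gt_atTop 0] with N hN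
      rw [Real.log_mul (x := 8 * B) (by positivity) hN.ne']
      ring
    have h3 : ∀ᶠ N : ℝ in atTop, Real.log (8 * B * N) / N < 2 * τ * Real.log 2 :=
      h1.eventually (gt_mem_nhds (by positivity))
    filter_upwards [h3, eventually_ge_atTop (1 / (2 * τ)), eventually_ge_atTop 1] with N h4 h5 h6
    have hN0 : 0 < N := by linarith
    refine ⟨?_, ?_, h6⟩
    · rw [div_lt_iff₀ hN0] at h4
      rw [div_le_iff₀ hl2]
      linarith
    · rw [div_le_iff₀ (by positivity)] at h5 ⊢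
      linarith
  obtain ⟨N0, hN0⟩ := eventually_atTop.1 hlim
  refine ⟨(⌊Real.log B / τ⌋₊ + 1) * (2 ^ c0 * (8 * B) ^ γ), γ, max N0 1, by positivity, hγ0, hγ1,
    le_max_right _ _, ?_⟩
  intro N hN Z hcl hZ
  obtain ⟨hk1, hNτ, hN1⟩ := hN0 N ((le_max_left _ _).trans hN)
  have hNpos : 0 < N := by linarith
  -- choose k
  set m : ℕ := ⌊2 * (B * N)⌋₊ with hm
  set k : ℕ := Nat.log 2 m + 1 with hk
  have hBN : 1 ≤ 2 * (B * N) := by nlinarith
  have hm0 : m ≠ 0 := by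
    have : 1 ≤ m := Nat.one_le_floor_iff _ |>.2 hBN
    omega
  have hkup : 2 * (B * N) < 2 ^ k := by
    have h1 := Nat.lt_pow_succ_log_self (b := 2) (by norm_num) m
    have h2 : m + 1 ≤ 2 ^ k := h1
    have h3 : 2 * (B * N) < m + 1 := Nat.lt_floor_add_one _
    have h4 : ((m + 1 : ℕ) : ℝ) ≤ ((2 ^ k : ℕ) : ℝ) := by exact_mod_cast h2
    push_cast at h4
    linarith
  have hklow : (2 : ℝ) ^ k ≤ 8 * B * N := by
    have h1 := Nat.pow_log_le_self 2 hm0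
    have h3 : (m : ℝ) ≤ 2 * (B * N) := Nat.floor_le (by positivity)
    have h4 : ((2 ^ Nat.log 2 m : ℕ) : ℝ) ≤ (m : ℝ) := by exact_mod_cast h1
    push_cast at h4
    rw [hk, pow_succ]
    nlinarith
  have hkN : (k : ℝ) / (2 * N) ≤ τ := by
    have h1 : (k : ℝ) * Real.log 2 ≤ Real.log (8 * B * N) := by
      rw [← Real.log_pow]
      exact Real.log_le_log (by positivity) hklow
    have h2 : (k : ℝ) ≤ Real.log (8 * B * N) / Real.log 2 := by rwa [le_div_iff₀ hl2]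
    rw [div_le_iff₀ (by positivity)]
    linarith
  set K : ℕ := ⌊(k : ℝ) * γ + c0⌋₊ with hK
  have hVK : ∀ m, (V δ τ k m).card ≤ K := by
    intro m
    have h1 := V_card hδ0 hτ hq hcop hα k m
    rw [hK]
    apply Nat.le_floor
    refine h1.trans (le_of_eq ?_)
    rw [← hr, hγ, hc0]
    field_simp
  have hcard := window_card hB3 hτ hN1 hkup hkN hNτ hcl hZ K hVK
  have hcard' : (Z.card : ℝ) ≤ (⌊Real.log B / τ⌋₊ + 1) * 2 ^ K := by exact_mod_cast hcard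
  refine hcard'.trans ?_
  rw [mul_assoc]
  apply mul_le_mul_of_nonneg_left _ (by positivity)
  have h1 : (2 : ℝ) ^ K ≤ 2 ^ ((k : ℝ) * γ + c0) := by
    rw [← Real.rpow_natCast]
    apply Real.rpow_le_rpow_of_exponent_le (by norm_num)
    exact Nat.floor_le (by positivity)
  refine h1.trans ?_
  rw [Real.rpow_add (by norm_num), Real.rpow_mul (by norm_num), Real.rpow_natCast]
  have h2 : ((2 : ℝ) ^ k) ^ γ ≤ (8 * B) ^ γ * N ^ γ := by
    rw [← Real.mul_rpow (by positivity) hNpos.le]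
    exact Real.rpow_le_rpow (by positivity) hklow hγ0.le
  calc ((2 : ℝ) ^ k) ^ γ * 2 ^ c0 ≤ ((8 * B) ^ γ * N ^ γ) * 2 ^ c0 :=
        mul_le_mul_of_nonneg_right h2 (by positivity)
    _ = 2 ^ c0 * (8 * B) ^ γ * N ^ γ := by ring


variable {Z S : Finset ℤ} {N M W : ℝ} {R : ℕ}

theorem MV_card (h : Setting Z S N M W R) {n : ℕ} (hn : n ≤ R) {x1 : ℤ} (hx1 : x1 ∈ S) {Q : ℕ} {h' : ℤ}
    (hQ : 0 < Q) (hcop : IsCoprime h' (Q : ℤ))
    (hα : |(Q : ℝ) * (Real.log 2 / Real.log 3) - h'| ≤ 1 / Q) {d : ℝ} (hd0 : 0 ≤ d)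
    (hd : (Real.log ((2 * M + 1) / 3) - Real.log (2 * N)) / 2 + Real.log W + n / (2 * N) ≤ d * Real.log 3) :
    ((MV S n).card : ℝ) ≤ ((n : ℝ) / Q + 1) * (2 * d * Q + 3) := by
  have hl3 : 0 < Real.log 3 := Real.log_pos (by norm_num)
  have hN0 : 0 < N := by linarith [h.N1]
  have hW0 : 0 < W := by linarith [h.W1]
  have hxlo : ∀ j, N ≤ |((T^[j] x1 : ℤ) : ℝ)| := fun j => h.lo _ (iter_mem h.closed (h.sub hx1) j)
  have hM0 : 0 < M := by
    have := h.hi _ (h.sub hx1)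
    have := h.lo _ (h.sub hx1)
    linarith
  obtain ⟨lo, hlo⟩ : ∃ lo, lo = Real.log (2 * N) := ⟨_, rfl⟩
  obtain ⟨hi, hhi⟩ : ∃ hi, hi = Real.log ((2 * M + 1) / 3) := ⟨_, rfl⟩
  rw [← hlo, ← hhi] at hd
  apply rot_count (Real.log 2 / Real.log 3) Q h' hQ hcop hα
    ((Real.log |(x1 : ℝ)| - (lo + hi) / 2) / Real.log 3) d hd0 n
  intro v hv
  rw [mem_MV] at hv
  obtain ⟨hvn, hT, hM⟩ := hv
  refine ⟨hvn, (od v x1 : ℤ), ?_⟩
  have h1 := h.mixed_range (Subset.refl S) (by omega) hT hM hx1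
  have hpos : 0 < |((T^[v] x1 : ℤ) : ℝ)| := lt_of_lt_of_le hN0 (hxlo v)
  obtain ⟨Lv, hLv⟩ : ∃ Lv, Lv = Real.log |((T^[v] x1 : ℤ) : ℝ)| := ⟨_, rfl⟩
  have h2 : lo ≤ Real.log W + Lv := by
    rw [hlo, hLv, ← Real.log_mul hW0.ne' hpos.ne']
    exact Real.log_le_log (by positivity) h1.1
  have h3 : Lv ≤ Real.log W + hi := by
    rw [hhi, hLv, ← Real.log_mul hW0.ne' (by positivity)]
    apply Real.log_le_log hpos
    rw [mul_div_assoc', le_div_iff₀ (by norm_num)]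
    linarith [h1.2]
  have h4 := log_iter h.N1 hxlo v
  have h5 : (od v x1 : ℝ) * (1 / (2 * N)) ≤ n / (2 * N) := by
    rw [mul_one_div]
    apply div_le_div_of_nonneg_right _ (by positivity)
    have : od v x1 ≤ n := (od_le v x1).trans hvn.le
    exact_mod_cast this
  rw [← hLv] at h4
  rw [abs_le] at h4
  have e : (v : ℝ) * (Real.log 2 / Real.log 3) - (Real.log |(x1 : ℝ)| - (lo + hi) / 2) / Real.log 3 -
      ((od v x1 : ℤ) : ℝ) = ((v : ℝ) * Real.log 2 - (Real.log |(x1 : ℝ)| - (lo + hi) / 2) -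
        od v x1 * Real.log 3) / Real.log 3 := by
    push_cast
    field_simp
  rw [e, abs_div, abs_of_pos hl3, div_le_iff₀ hl3, abs_le]
  constructor <;> linarith [h4.1, h4.2]

/-- the period of the slope is large -/
theorem q_lower : ∃ c : ℝ, 0 < c ∧ ∀ (q r : ℕ) (N : ℝ), 0 < q → r ≤ q → 1 ≤ N →
    |(q : ℝ) * Real.log 2 - r * Real.log 3| ≤ q / (2 * N) → c * N ^ 4 ≤ (q : ℝ) ^ 21 := by
  obtain ⟨c, hc, hm⟩ := Pool.Agent.J6H8.Sal.measure
  refine ⟨c / 2 ^ 13, by positivity, ?_⟩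
  intro q r N hq hrq hN hform
  have hqr : (0 : ℝ) < q := by exact_mod_cast hq
  have hN0 : 0 < N := by linarith
  have h1 := hm (q : ℤ) (-(r : ℤ)) (Or.inl (by exact_mod_cast hq.ne'))
  have e : ((q : ℤ) : ℝ) * Real.log 2 + ((-(r : ℤ) : ℤ) : ℝ) * Real.log 3 =
      (q : ℝ) * Real.log 2 - r * Real.log 3 := by push_cast; ring
  rw [e] at h1
  have h2 : ((|(q : ℤ)| + |(-(r : ℤ))| : ℤ) : ℝ) ≤ 2 * q := by
    rw [abs_neg, abs_of_nonneg (by positivity), abs_of_nonneg (by positivity)]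
    push_cast
    have : (r : ℝ) ≤ q := by exact_mod_cast hrq
    linarith
  have h3 : (0 : ℝ) ≤ ((|(q : ℤ)| + |(-(r : ℤ))| : ℤ) : ℝ) := by
    have : (0 : ℤ) ≤ |(q : ℤ)| + |(-(r : ℤ))| := by positivity
    exact_mod_cast this
  have h4 : c ≤ (2 * q) ^ 17 * (q / (2 * N)) ^ 4 :=
    h1.trans (mul_le_mul (pow_le_pow_left₀ h3 h2 17) (pow_le_pow_left₀ (abs_nonneg _) hform 4)
      (by positivity) (by positivity))
  have h5 : (2 * (q : ℝ)) ^ 17 * (q / (2 * N)) ^ 4 = 2 ^ 13 * (q : ℝ) ^ 21 / N ^ 4 := by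
    field_simp
  rw [h5, le_div_iff₀ (by positivity)] at h4
  rw [div_mul_eq_mul_div, div_le_iff₀ (by positivity)]
  linarith

end Pool.Agent.J6H8.Osc
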