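import Mathlib
import Pool.Agent.J6H8.Osc.Win

set_option autoImplicit false

/-!
Only finitely many cycles of the 3x+1 map have oscillation below `9/2`.
-/

namespace Pool.Agent.J6H8.Osc

open Finset Pool.Agent.H319R2 Pool.Agent.H547R3 Filter

/-- a cycle is determined by its period at each of its elements -/
theorem cyc_per {Z : Finset ℤ} (hZ : IsCycle Z) {x0 : ℤ} (hx0 : x0 ∈ Z) : T^[Z.card] x0 = x0 := by
  obtain ⟨z, hz, hpos, hset, hcard, -, -⟩ := hZ.normal
  obtain ⟨j, hj⟩ := hZ.back hz hx0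
  rw [hcard, ← hj, ← Function.iterate_add_apply, Nat.add_comm, Function.iterate_add_apply,
    Function.iterate_minimalPeriod]

/-- elements with large absolute values: the largest one is even -/
theorem exists_even {Z : Finset ℤ} (hZ : IsCycle Z) (hbig : ∀ x ∈ Z, 2 ≤ |x|) : ∃ z ∈ Z, z % 2 = 0 := by
  obtain ⟨x1, hx1, -⟩ := hZ.normal
  obtain ⟨z, hz, hmax⟩ := exists_max_image Z (fun x => |x|) ⟨x1, hx1⟩
  refine ⟨z, hz, ?_⟩
  rcases par z with h | h
  · exact h
  · exfalso
    have h1 := T_odd h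
    have h2 := hmax _ (hZ.closed hz 1)
    have h3 := hbig z hz
    simp only [Function.iterate_one] at h2
    rcases abs_cases z with h4 | h4 <;> rcases abs_cases (T z) with h5 | h5 <;> omega

theorem log3_ub : Real.log 3 ≤ 1.0987 := by
  rw [Real.log_le_iff_le_exp (by norm_num)]
  have h1 : Real.exp 1.0987 = Real.exp 1 * Real.exp 0.0987 := by
    rw [← Real.exp_add]; norm_num
  have h2 : (1.1037 : ℝ) ≤ Real.exp 0.0987 := by
    have := Real.sum_le_exp_of_nonneg (x := 0.0987) (by norm_num) 4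
    refine le_trans ?_ this
    norm_num [sum_range_succ, Nat.factorial]
  rw [h1]
  calc (3 : ℝ) ≤ 2.7182818283 * 1.1037 := by norm_num
    _ ≤ Real.exp 1 * Real.exp 0.0987 :=
        mul_le_mul Real.exp_one_gt_d9.le h2 (by norm_num) (Real.exp_pos _).le

/-- thresholds -/
theorem thresholds (C w B c : ℝ) (hw : 0 < w) (hB : 0 < B) :
    ∀ᶠ N : ℝ in atTop, 1 ≤ N ∧ C * N ^ (0.4 : ℝ) / N ≤ w ∧ 3 * (C * N ^ (0.4 : ℝ)) ^ 2 < N ∧
      (Real.log (16 * (B * N)) / Real.log 2 + 6) / N ≤ w ∧ 1 / N ≤ w ∧ c ≤ N ^ 4 := by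
  have t1 : Tendsto (fun N : ℝ => C * N ^ (-(0.6 : ℝ))) atTop (nhds 0) := by
    have := (tendsto_rpow_neg_atTop (show (0 : ℝ) < 0.6 by norm_num)).const_mul C
    simpa using this
  have t2 : Tendsto (fun N : ℝ => 3 * C ^ 2 * N ^ (-(0.2 : ℝ))) atTop (nhds 0) := by
    have := (tendsto_rpow_neg_atTop (show (0 : ℝ) < 0.2 by norm_num)).const_mul (3 * C ^ 2)
    simpa using this
  have t3 : Tendsto (fun N : ℝ => (Real.log (16 * B) / Real.log 2 + 6) / N + (1 / Real.log 2) * (Real.log N / N))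
      atTop (nhds 0) := by
    have a1 : Tendsto (fun N : ℝ => (Real.log (16 * B) / Real.log 2 + 6) / N) atTop (nhds 0) :=
      Tendsto.div_atTop tendsto_const_nhds tendsto_id
    have a2 : Tendsto (fun N : ℝ => Real.log N / N) atTop (nhds 0) :=
      Real.isLittleO_log_id_atTop.tendsto_div_nhds_zero
    have a3 := a1.add (a2.const_mul (1 / Real.log 2))
    simpa using a3
  have t4 : Tendsto (fun N : ℝ => N ^ 4) atTop atTop := tendsto_pow_atTop (by norm_num)
  filter_upwards [t1.eventually (gt_mem_nhds hw), t2.eventually (gt_mem_nhds (show (0 : ℝ) < 1 by norm_num)),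
    t3.eventually (gt_mem_nhds hw), eventually_ge_atTop (1 : ℝ), eventually_ge_atTop (1 / w),
    t4.eventually_ge_atTop c] with N h1 h2 h3 h4 h5 h6
  have hN : 0 < N := by linarith
  refine ⟨h4, ?_, ?_, ?_, ?_, h6⟩
  · have e : C * N ^ (0.4 : ℝ) / N = C * N ^ (-(0.6 : ℝ)) := by
      rw [mul_div_assoc]
      congr 1
      rw [← Real.rpow_sub_one hN.ne']
      norm_num
    rw [e]; exact h1.le
  · have e : 3 * (C * N ^ (0.4 : ℝ)) ^ 2 = 3 * C ^ 2 * N ^ (-(0.2 : ℝ)) * N := by
      rw [mul_pow, ← Real.rpow_natCast (N ^ (0.4 : ℝ)) 2, ← Real.rpow_mul hN.le, mul_assoc (3 * C ^ 2),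
        ← Real.rpow_add_one hN.ne']
      norm_num
      ring
    rw [e]
    nlinarith
  · have e : (Real.log (16 * (B * N)) / Real.log 2 + 6) / N =
        (Real.log (16 * B) / Real.log 2 + 6) / N + (1 / Real.log 2) * (Real.log N / N) := by
      rw [← mul_assoc, Real.log_mul (by positivity) hN.ne']
      have : Real.log 2 ≠ 0 := (Real.log_pos (by norm_num)).ne'
      field_simp
      ring
    rw [e]; exact h3.le
  · rw [div_le_iff₀ hw] at h5
    rw [div_le_iff₀ hN]
    linarith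

/-- the analytic part: the least element is bounded -/
theorem osc_min {B : ℝ} (hB4 : 4 ≤ B) (hB : B < 9 / 2) : ∃ Nmax : ℝ, ∀ Z : Finset ℤ, IsCycle Z →
    ∀ x0 ∈ Z, (∀ x ∈ Z, |x0| ≤ |x|) → (∀ x ∈ Z, |(x : ℝ)| ≤ B * |(x0 : ℝ)|) → |(x0 : ℝ)| ≤ Nmax := by
  classical
  have hl2 : 0 < Real.log 2 := Real.log_pos (by norm_num)
  have hl3 : 0 < Real.log 3 := Real.log_pos (by norm_num)
  have hl2b := Real.log_two_gt_d9
  have hl2c := Real.log_two_lt_d9
  have hl3a := log3_lb
  have hl3b := log3_ub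
  have hl32 : 3 * Real.log 3 < 5 * Real.log 2 := by
    have : Real.log (3 ^ 3) < Real.log (2 ^ 5) := Real.log_lt_log (by norm_num) (by norm_num)
    rw [Real.log_pow, Real.log_pow] at this
    push_cast at this
    exact this
  have hB0 : 0 < B := by linarith
  have e32 : Real.log (3 / 2) = Real.log 3 - Real.log 2 := Real.log_div (by norm_num) (by norm_num)
  have e92 : Real.log (9 / 2) = 2 * Real.log 3 - Real.log 2 := by
    rw [Real.log_div (by norm_num) (by norm_num), show (9 : ℝ) = 3 ^ 2 by norm_num, Real.log_pow]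
    push_cast; ring
  have hlB : Real.log B < Real.log (9 / 2) := Real.log_lt_log hB0 hB
  have hwin : Real.log B - Real.log 3 < Real.log 3 * 0.4 := by linarith
  obtain ⟨C, γ, N0, hC, hγ0, hγ1, hN01, hwb⟩ := window_bound' (by linarith) hwin
  -- the width
  obtain ⟨w, hwdef⟩ : ∃ w, w = min 0.001 ((Real.log (9 / 2) - Real.log B) / 2) := ⟨_, rfl⟩
  have hw0 : 0 < w := by
    rw [hwdef]; apply lt_min (by norm_num); linarith
  have hw1 : w ≤ 0.001 := by rw [hwdef]; exact min_le_left _ _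
  have hw2 : w ≤ (Real.log (9 / 2) - Real.log B) / 2 := by rw [hwdef]; exact min_le_right _ _
  obtain ⟨W, hW⟩ : ∃ W, W = Real.exp w := ⟨_, rfl⟩
  have hlogW : Real.log W = w := by rw [hW, Real.log_exp]
  have hW1 : 1 ≤ W := by rw [hW]; exact Real.one_le_exp hw0.le
  have hW0 : 0 < W := by linarith
  have hW2 : W ≤ 1.002 := by
    rw [hW]
    have h1 : Real.exp w ≤ Real.exp 0.001 := Real.exp_le_exp.2 hw1
    have h2 : Real.exp 0.001 ≤ 1.002 := by
      have := Real.exp_bound' (x := 0.001) (by norm_num) (by norm_num) (n := 2) (by norm_num)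
      refine this.trans ?_
      norm_num [sum_range_succ, Nat.factorial]
    linarith
  have hWB : W * B < 9 / 2 := by
    have h1 : Real.log (W * B) < Real.log (9 / 2) := by
      rw [Real.log_mul hW0.ne' hB0.ne', hlogW]; linarith
    exact (Real.log_lt_log_iff (by positivity) (by norm_num)).1 h1
  obtain ⟨δ, hδ⟩ : ∃ δ, δ = 9 / 2 - W * B := ⟨_, rfl⟩
  have hδ0 : 0 < δ := by rw [hδ]; linarith
  obtain ⟨Q, h', hQ0, hQ, hcop', hα⟩ := exists_approx 3000
  have hQr : (0 : ℝ) < Q := by exact_mod_cast hQ0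
  obtain ⟨c0, hc0, hql⟩ := q_lower
  obtain ⟨N1, hN1⟩ := eventually_atTop.1 (thresholds C (min (w / 8) (min (δ / 4) (1 / 1000))) B
    ((192 / w) ^ 21 / c0) (lt_min (by positivity) (lt_min (by positivity) (by norm_num))) hB0)
  obtain ⟨K, hK⟩ : ∃ K, K = 1.4077 * (0.3728 * (Real.log (16 * B) / Real.log 2 + 1) +
    2 * 0.1859 * Q + 3) + 28 - 4 * Real.log c0 / 21 - 4 * Real.log (w / 16) := ⟨_, rfl⟩
  refine ⟨max (max N0 N1) (Real.exp (K / 0.0047)), ?_⟩
  intro Z hZ x0 hx0 hmin hmax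
  by_contra hcon
  push Not at hcon
  obtain ⟨N, hNdef⟩ : ∃ N, N = |(x0 : ℝ)| := ⟨_, rfl⟩
  rw [← hNdef] at hcon hmax
  have hNN0 : N0 ≤ N := ((le_max_left _ _).trans (le_max_left _ _)).trans hcon.le
  have hNN1 : N1 ≤ N := ((le_max_right _ _).trans (le_max_left _ _)).trans hcon.le
  have hNexp : Real.exp (K / 0.0047) < N := lt_of_le_of_lt (le_max_right _ _) hcon
  obtain ⟨t1, t2, t3, t4, t5, t6⟩ := hN1 N hNN1
  have hN0 : 0 < N := by linarith
  have hwmin : min (w / 8) (min (δ / 4) (1 / 1000)) ≤ w / 8 := min_le_left _ _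
  have hδmin : min (w / 8) (min (δ / 4) (1 / 1000)) ≤ δ / 4 :=
    (min_le_right _ _).trans (min_le_left _ _)
  have h1000 : min (w / 8) (min (δ / 4) (1 / 1000)) ≤ 1 / 1000 :=
    (min_le_right _ _).trans (min_le_right _ _)
  have hlo : ∀ x ∈ Z, N ≤ |(x : ℝ)| := by
    intro x hx
    rw [hNdef]
    exact_mod_cast hmin x hx
  have hclosed : ∀ x ∈ Z, T x ∈ Z := fun x hx => by simpa using hZ.closed hx 1
  -- the size of the cycle
  obtain ⟨p, hp⟩ : ∃ p, p = Z.card := ⟨_, rfl⟩
  have hp0 : 0 < p := by rw [hp]; exact hZ.card_pos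
  have hpr : (0 : ℝ) < p := by exact_mod_cast hp0
  have hper : T^[p] x0 = x0 := by rw [hp]; exact cyc_per hZ hx0
  have hpC : (p : ℝ) ≤ C * N ^ (0.4 : ℝ) := by
    have h1 := hwb N hNN0 Z (fun x hx j => hZ.closed hx j) (fun x hx => ⟨hlo x hx, hmax x hx⟩)
    rw [← hp] at h1
    refine h1.trans (mul_le_mul_of_nonneg_left ?_ hC.le)
    exact Real.rpow_le_rpow_of_exponent_le t1 hγ1.le
  have hpN : (p : ℝ) / N ≤ min (w / 8) (min (δ / 4) (1 / 1000)) :=
    (div_le_div_of_nonneg_right hpC hN0.le).trans t2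
  have hpN1 : (p : ℝ) / N ≤ w / 8 := hpN.trans hwmin
  have hp2 : 3 * (p : ℝ) ^ 2 < N := by
    refine lt_of_le_of_lt ?_ t3
    have : (p : ℝ) ^ 2 ≤ (C * N ^ (0.4 : ℝ)) ^ 2 := pow_le_pow_left₀ hpr.le hpC 2
    linarith
  have hlo' : ∀ j, N ≤ |((T^[j] x0 : ℤ) : ℝ)| := fun j => hlo _ (hZ.closed hx0 j)
  have hhi' : ∀ j, |((T^[j] x0 : ℤ) : ℝ)| ≤ B * N := fun j => hmax _ (hZ.closed hx0 j)
  have hform0 := cycle_log hper t1 hlo'
  -- coprime representation
  obtain ⟨o, ho⟩ : ∃ o, o = od p x0 := ⟨_, rfl⟩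
  rw [← ho] at hform0
  have hop : o ≤ p := by rw [ho]; exact od_le p x0
  obtain ⟨g, hg⟩ : ∃ g, g = Nat.gcd p o := ⟨_, rfl⟩
  have hg0 : 0 < g := by rw [hg]; exact Nat.gcd_pos_of_pos_left _ hp0
  have hgr : (0 : ℝ) < g := by exact_mod_cast hg0
  obtain ⟨q, hq⟩ : ∃ q, q = p / g := ⟨_, rfl⟩
  obtain ⟨r, hr⟩ : ∃ r, r = o / g := ⟨_, rfl⟩
  have hpg : p = g * q := by rw [hq, hg]; exact (Nat.mul_div_cancel' (Nat.gcd_dvd_left p o)).symm
  have hog : o = g * r := by rw [hr, hg]; exact (Nat.mul_div_cancel' (Nat.gcd_dvd_right p o)).symm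
  have hq0 : 0 < q := by
    rcases Nat.eq_zero_or_pos q with h | h
    · rw [h, mul_zero] at hpg; omega
    · exact h
  have hqr : (0 : ℝ) < q := by exact_mod_cast hq0
  have hqp : q ≤ p := by rw [hpg]; exact Nat.le_mul_of_pos_left q hg0
  have hqp' : (q : ℝ) ≤ p := by exact_mod_cast hqp
  have hrq : r ≤ q := by
    have : g * r ≤ g * q := by rw [← hpg, ← hog]; exact hop
    exact Nat.le_of_mul_le_mul_left this hg0
  have hcopn : Nat.Coprime q r := by
    rw [hq, hr, hg]
    exact Nat.coprime_div_gcd_div_gcd (by rw [← hg]; exact hg0)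
  have hcop : IsCoprime (r : ℤ) (q : ℤ) := by
    exact (Nat.isCoprime_iff_coprime.2 hcopn).symm
  have hform : |(q : ℝ) * Real.log 2 - r * Real.log 3| ≤ q / (2 * N) := by
    have e1 : (p : ℝ) * Real.log 2 - o * Real.log 3 = g * ((q : ℝ) * Real.log 2 - r * Real.log 3) := by
      rw [hpg, hog]; push_cast; ring
    rw [e1, abs_mul, abs_of_pos hgr, hpg] at hform0
    push_cast at hform0
    rw [mul_div_assoc] at hform0
    exact le_of_mul_le_mul_left hform0 hgr
  -- q is large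
  have hq21 := hql q r N hq0 hrq t1 hform
  have hqbig : 192 / w ≤ q := by
    have h1 : (192 / w) ^ 21 ≤ (q : ℝ) ^ 21 := by
      rw [div_le_iff₀ hc0] at t6
      linarith
    exact le_of_pow_le_pow_left₀ (by norm_num) hqr.le h1
  -- the window set
  have hlogM : Real.log (B * N) = Real.log B + Real.log N := Real.log_mul hB0.ne' hN0.ne'
  have hlog2N : Real.log (2 * N) = Real.log 2 + Real.log N := Real.log_mul (by norm_num) hN0.ne'
  have hsep : 3 * ((p : ℝ) / N) < Real.log 3 / q := by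
    rw [← mul_div_assoc, div_lt_div_iff₀ hN0 hqr]
    have h1 : 3 * (p : ℝ) * q ≤ 3 * (p : ℝ) ^ 2 := by
      calc 3 * (p : ℝ) * q ≤ 3 * p * p := mul_le_mul_of_nonneg_left hqp' (by positivity)
        _ = 3 * (p : ℝ) ^ 2 := by ring
    have h2 : 1 * N ≤ Real.log 3 * N := mul_le_mul_of_nonneg_right (by linarith) hN0.le
    linarith
  have hpN0 : 0 < (p : ℝ) / N := by positivity
  obtain ⟨S, hS1, hS2, hS3, hS4⟩ := exists_S (α := Real.log (2 * N)) (ω := w / 2) t1 hlo' hhi'
    (by rw [hlog2N]; linarith) (by rw [hlog2N, hlogM]; linarith) hq0 hqp hcop hform (by linarith)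
  have hSZ : S ⊆ Z := by
    intro x hx
    obtain ⟨j, rfl⟩ := hS1 x hx
    exact hZ.closed hx0 j
  -- number of members
  have hScard : w * q / 16 ≤ S.card := by
    refine le_trans ?_ hS4
    have h1 : (w / 2 - 2 * ((p : ℝ) / N)) * q / Real.log 3 ≥ w / 4 * q / 2 := by
      have h2 : w / 4 ≤ w / 2 - 2 * ((p : ℝ) / N) := by linarith
      have h3 : Real.log 3 ≤ 2 := by linarith
      have h4 : w / 4 * q ≤ (w / 2 - 2 * ((p : ℝ) / N)) * q := mul_le_mul_of_nonneg_right h2 hqr.le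
      calc w / 4 * q / 2 ≤ w / 4 * q / Real.log 3 :=
            div_le_div_of_nonneg_left (by positivity) hl3 h3
        _ ≤ _ := div_le_div_of_nonneg_right h4 hl3.le
    have h5 : 192 ≤ w * q := by
      rw [div_le_iff₀ hw0] at hqbig
      linarith
    linarith
  have hwq : 192 ≤ w * q := by
    rw [div_le_iff₀ hw0] at hqbig
    linarith
  have hS12 : 12 ≤ S.card := by
    have : (12 : ℝ) ≤ S.card := by linarith
    exact_mod_cast this
  -- the number of digits
  obtain ⟨n, hn⟩ : ∃ n, n = ⌊Real.log (16 * (B * N)) / Real.log 2⌋₊ + 1 := ⟨_, rfl⟩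
  have hlog16 : 0 ≤ Real.log (16 * (B * N)) := by
    apply Real.log_nonneg
    have : 1 * 1 ≤ B * N := mul_le_mul (by linarith) t1 (by norm_num) hB0.le
    linarith
  have hnup : (n : ℝ) ≤ Real.log (16 * (B * N)) / Real.log 2 + 1 := by
    rw [hn]; push_cast
    have := Nat.floor_le (show 0 ≤ Real.log (16 * (B * N)) / Real.log 2 by positivity)
    linarith
  have hbig : 16 * (B * N) < 2 ^ n := by
    have h1 : Real.log (16 * (B * N)) / Real.log 2 < n := by
      rw [hn]; push_cast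
      exact Nat.lt_floor_add_one _
    rw [div_lt_iff₀ hl2, ← Real.log_pow] at h1
    exact (Real.log_lt_log_iff (by positivity) (by positivity)).1 h1
  obtain ⟨R, hR⟩ : ∃ R, R = p + n + 4 := ⟨_, rfl⟩
  have hRN : (R : ℝ) / N ≤ w / 2 := by
    have h1 : (R : ℝ) ≤ p + (Real.log (16 * (B * N)) / Real.log 2 + 6) := by
      rw [hR]; push_cast; linarith
    have h2 : (R : ℝ) / N ≤ p / N + (Real.log (16 * (B * N)) / Real.log 2 + 6) / N := by
      rw [← add_div]; exact div_le_div_of_nonneg_right h1 hN0.le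
    linarith [t4.trans hwmin]
  have h1N : 1 / N ≤ δ / 4 := t5.trans hδmin
  have h1Nb : 1 ≤ δ / 4 * N := by rwa [div_le_iff₀ hN0] at h1N
  have hN1000 : 1000 ≤ N := by
    have h2 := t5.trans h1000
    rw [div_le_iff₀ hN0] at h2
    linarith
  have hWBN : W * B * N = 9 / 2 * N - δ * N := by rw [hδ]; ring
  have hδN : 4 ≤ δ * N := by linarith
  have hBN : B * N ≤ W * B * N := by
    apply mul_le_mul_of_nonneg_right _ hN0.le
    calc B = 1 * B := (one_mul B).symm
      _ ≤ W * B := mul_le_mul_of_nonneg_right hW1 hB0.le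
  -- iterates
  have hiter : ∀ x ∈ S, ∀ v, |Real.log |((T^[v] x : ℤ) : ℝ)| - Real.log |(x : ℝ)| + v * Real.log 2 -
      od v x * Real.log 3| ≤ v / (2 * N) := by
    intro x hx v
    have h1 := log_iter t1 (fun j => hlo _ (hZ.closed (hSZ hx) j)) v
    refine h1.trans ?_
    rw [mul_one_div]
    apply div_le_div_of_nonneg_right _ (by positivity)
    exact_mod_cast od_le v x
  have hpos : ∀ x ∈ S, ∀ v, 0 < |((T^[v] x : ℤ) : ℝ)| := fun x hx v =>
    lt_of_lt_of_le hN0 (hlo _ (hZ.closed (hSZ hx) v))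
  have hset : Setting Z S N (B * N) W R := by
    refine ⟨hclosed, hSZ, hlo, hmax, ?_, t1, hW1, ?_, ?_, ?_⟩
    · intro v hv x hx y hy hod
      have h1 := hiter x hx v
      have h2 := hiter y hy v
      rw [hod, abs_le] at h1
      rw [abs_le] at h2
      have h3 := hS2 x hx
      have h4 := hS2 y hy
      have h5 : (v : ℝ) / (2 * N) ≤ w / 4 := by
        have : (v : ℝ) ≤ R := by exact_mod_cast hv
        have h6 : (v : ℝ) / N ≤ w / 2 := (div_le_div_of_nonneg_right this hN0.le).trans hRN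
        have h7 : (v : ℝ) / (2 * N) = v / N / 2 := by field_simp
        rw [h7]; linarith
      have h8 : Real.log |((T^[v] x : ℤ) : ℝ)| ≤ Real.log (W * |((T^[v] y : ℤ) : ℝ)|) := by
        rw [Real.log_mul hW0.ne' (hpos y hy v).ne', hlogW]
        linarith [h1.2, h2.1, h3.1, h3.2, h4.1, h4.2]
      exact (Real.log_le_log_iff (hpos x hx v) (mul_pos hW0 (hpos y hy v))).1 h8
    · have e : W * (2 * (B * N) + 1) = 2 * (W * B * N) + W := by ring
      rw [e]; linarith
    · have e : W * (4 * (B * N) + 5) = 4 * (W * B * N) + 5 * W := by ring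
      rw [e]; linarith
    · have e : W * (2 * (B * N) + 1) = 2 * (W * B * N) + W := by ring
      rw [e]; linarith
  have hne_sep : ∀ x ∈ S, ∀ y ∈ S, x ≠ y → (p : ℝ) / N < abs (Real.log |(x : ℝ)| - Real.log |(y : ℝ)|) := by
    intro x hx y hy hne
    refine lt_of_lt_of_le ?_ (hS3 x hx y hy hne)
    linarith
  have hord : ∀ v ≤ p, ∀ x ∈ S, ∀ y ∈ S, od v x = od v y → |x| < |y| → |T^[v] x| < |T^[v] y| := by
    intro v hv x hx y hy hod hlt
    have h1 := hiter x hx v
    have h2 := hiter y hy v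
    rw [hod, abs_le] at h1
    rw [abs_le] at h2
    have h3 : (v : ℝ) / (2 * N) ≤ p / N / 2 := by
      have : (v : ℝ) ≤ p := by exact_mod_cast hv
      have h6 : (v : ℝ) / N ≤ p / N := div_le_div_of_nonneg_right this hN0.le
      have h7 : (v : ℝ) / (2 * N) = v / N / 2 := by field_simp
      rw [h7]; linarith
    have hne : x ≠ y := by rintro rfl; exact lt_irrefl _ hlt
    have h4 := hne_sep x hx y hy hne
    have hltr : |(x : ℝ)| < |(y : ℝ)| := by exact_mod_cast hlt
    have hx0' : 0 < |(x : ℝ)| := lt_of_lt_of_le hN0 (hlo x (hSZ hx))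
    have h5 : Real.log |(x : ℝ)| < Real.log |(y : ℝ)| := Real.log_lt_log hx0' hltr
    rw [abs_of_neg (by linarith)] at h4
    have h8 : Real.log |((T^[v] x : ℤ) : ℝ)| < Real.log |((T^[v] y : ℤ) : ℝ)| := by
      linarith [h1.2, h2.1]
    have h9 := (Real.log_lt_log_iff (hpos x hx v) (hpos y hy v)).1 h8
    exact_mod_cast h9
  have hinj : ∀ x ∈ S, ∀ y ∈ S, |x| = |y| → x = y := by
    intro x hx y hy hxy
    by_contra hne
    have h4 := hne_sep x hx y hy hne
    have : |(x : ℝ)| = |(y : ℝ)| := by exact_mod_cast hxy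
    rw [this, sub_self, abs_zero] at h4
    linarith
  -- the least even element
  have hbig2 : ∀ x ∈ Z, 2 ≤ |x| := by
    intro x hx
    have h1 := hlo x hx
    have h2 : (2 : ℝ) ≤ |(x : ℝ)| := by linarith
    exact_mod_cast h2
  obtain ⟨ze, hze, hzee⟩ := exists_even hZ hbig2
  obtain ⟨z0, hz0, hz0min⟩ := exists_min_image (Z.filter fun z => z % 2 = 0) (fun z => |z|)
    ⟨ze, mem_filter.2 ⟨hze, hzee⟩⟩
  rw [mem_filter] at hz0
  have hreach : ∀ x ∈ S, ∃ v ≤ p, T^[v] x = z0 := by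
    intro x hx
    obtain ⟨j, hj⟩ := hZ.back (hSZ hx) hz0.1
    refine ⟨j % p, (Nat.mod_lt _ hp0).le, ?_⟩
    have hxp : Function.IsPeriodicPt T p x := by
      have := cyc_per hZ (hSZ hx)
      rw [← hp] at this
      exact this
    rw [hxp.iterate_mod_apply]
    exact hj
  have hcount := hset.count hS12 n (by rw [hn]; omega) (by rw [hR]; omega) hbig (P := p)
    (by rw [hR]; omega) hord hinj hz0.2 (fun z hz hze => hz0min z (mem_filter.2 ⟨hz, hze⟩)) hreach
  -- upper bound for the number of mixed times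
  obtain ⟨x1, hx1⟩ : S.Nonempty := card_pos.1 (by omega)
  have hMV := MV_card hset (n := n) (by rw [hR]; omega) hx1 hQ0 hcop' hα (d := 0.1859) (by norm_num) (by
    rw [hlogW]
    have h1 : (2 * (B * N) + 1) / 3 ≤ 3 / 2 * (2 * N) := by
      linarith
    have h2 : Real.log ((2 * (B * N) + 1) / 3) ≤ Real.log (3 / 2) + Real.log (2 * N) := by
      rw [← Real.log_mul (by norm_num) (by positivity)]
      exact Real.log_le_log (by positivity) h1
    have h3 : (n : ℝ) / (2 * N) ≤ 0.0003 := by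
      have h4 : (n : ℝ) / N ≤ w / 2 := by
        refine le_trans ?_ hRN
        apply div_le_div_of_nonneg_right _ hN0.le
        rw [hR]; push_cast
        linarith
      have h7 : (n : ℝ) / (2 * N) = n / N / 2 := by field_simp
      rw [h7]; linarith
    linarith)
  -- conclusion
  have hlogq : 4 * Real.log N + Real.log c0 ≤ 21 * Real.log q := by
    have h1 := Real.log_le_log (by positivity) hq21
    rw [Real.log_mul hc0.ne' (by positivity), Real.log_pow, Real.log_pow] at h1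
    push_cast at h1
    linarith
  have hlogS : Real.log q + Real.log (w / 16) ≤ Real.log S.card := by
    rw [← Real.log_mul hqr.ne' (by positivity)]
    apply Real.log_le_log (by positivity)
    calc (q : ℝ) * (w / 16) = w * q / 16 := by ring
      _ ≤ _ := hScard
  have hMV2 : ((MV S n).card : ℝ) ≤ 0.3728 * n + 2 * 0.1859 * Q + 3 := by
    refine hMV.trans ?_
    have h1 : ((n : ℝ) / Q + 1) * (2 * 0.1859 * Q + 3) = 2 * 0.1859 * n + 3 * (n / Q) + 2 * 0.1859 * Q + 3 := by
      field_simp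
      ring
    rw [h1]
    have h2 : (n : ℝ) / Q ≤ n / 3000 :=
      div_le_div_of_nonneg_left (Nat.cast_nonneg n) (by norm_num) hQ
    linarith
  have hn2 : (n : ℝ) ≤ Real.log N / Real.log 2 + (Real.log (16 * B) / Real.log 2 + 1) := by
    refine hnup.trans (le_of_eq ?_)
    rw [← mul_assoc, Real.log_mul (by positivity) hN0.ne']
    ring
  have hlogN0 : 0 ≤ Real.log N := Real.log_nonneg t1
  have hdiv : Real.log N / Real.log 2 ≤ 1.4427 * Real.log N := by
    rw [div_le_iff₀ hl2]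
    have h1 : 1 ≤ 1.4427 * Real.log 2 := by linarith
    have h2 := mul_le_mul_of_nonneg_left h1 hlogN0
    linarith
  have hKN : K / 0.0047 < Real.log N := by
    rwa [Real.lt_log_iff_exp_lt hN0]
  rw [div_lt_iff₀ (by norm_num)] at hKN
  rw [hK] at hKN
  linarith

/-- **Bounded oscillation.** -/
theorem osc_finite (B : ℝ) (hB : B < 9 / 2) :
    {Z : Finset ℤ | IsCycle Z ∧ ∀ x ∈ Z, ∀ y ∈ Z, |(x : ℝ)| ≤ B * |(y : ℝ)|}.Finite := by
  classical
  obtain ⟨Nmax, hNmax⟩ := osc_min (B := max B 4) (le_max_right _ _) (max_lt hB (by norm_num))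
  set L : ℤ := ⌈max B 4 * Nmax⌉ with hL
  apply Set.Finite.subset (Finset.finite_toSet ((Finset.Icc (-L) L).powerset))
  rintro Z ⟨hZ, hosc⟩
  rw [mem_coe, mem_powerset]
  obtain ⟨x1, hx1, -⟩ := hZ.normal
  obtain ⟨x0, hx0, hmin⟩ := exists_min_image Z (fun x => |x|) ⟨x1, hx1⟩
  have hx0r : ∀ x ∈ Z, |(x : ℝ)| ≤ max B 4 * |(x0 : ℝ)| := fun x hx =>
    (hosc x hx x0 hx0).trans (mul_le_mul_of_nonneg_right (le_max_left _ _) (abs_nonneg _))
  have hbound := hNmax Z hZ x0 hx0 hmin hx0r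
  have h4 : (0 : ℝ) < max B 4 := lt_of_lt_of_le (by norm_num) (le_max_right _ _)
  intro x hx
  rw [Finset.mem_Icc, ← abs_le]
  have h1 : |(x : ℝ)| ≤ L := by
    refine ((hx0r x hx).trans (mul_le_mul_of_nonneg_left hbound h4.le)).trans ?_
    rw [hL]
    exact Int.le_ceil _
  exact_mod_cast h1

end Pool.Agent.J6H8.Osc
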